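import Pool.Agent.Lib.SmH.Defs
import Pool.Agent.Lib.SmJ.L.Vec

/-!
# HEIGHTS (MP_48b749_nt, MP_950c68_ag): the interface between the blocks I, G and the counting block L

`p : J → k[X]` is the vector of all the primes of `D`. `NAH`, `NTH` are the two sums of signs of the
recursion; `TypEqH` the equivalence relation whose classes carry all the data of level `≤ j`;
`GridThmA`, `GridThmT` the two grid theorems; `HFacts` the facts on one vector.
-/

set_option autoImplicit false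

open Polynomial

namespace Pool.Agent.SmH

open Pool.Agent.SmJ
open Pool.Agent.Sm (leg Irr Dir repl N0)

variable {k : Type} [Field k] {G V V1 Pl M : Type} [Group G] [AddCommGroup V]
  [DistribMulAction G V] [AddCommGroup V1] [Module (ZMod 2) V1] [AddCommGroup M]
  [DistribMulAction G M]

section defs

variable (S : Sys G V V1 Pl) (H : HData V M Pl) (ch : k[X] → G → ZMod 2) (d : TwData k V1)
  {J : Type} [Fintype J] (p : J → k[X])

/-- `y` is a rigid Selmer element of level `i` above the code `a`: `2 ^ (i - 1) y.1 = a`. -/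
def AbvH (i : ℕ) (a : CodeJ d J) (y : (G → V) × (Pl → V)) : Prop :=
  IsPr S (chiJ ch p) i y ∧ ∀ s, (2 : ℕ) ^ (i - 1) • y.1 s = S.iota (homJ ch d p a s)

/-- The flag: `LH i` is the set of the codes of level `i`. -/
abbrev LH (i : ℕ) : Set (CodeJ d J) := Lfl (FJ S ch d p) (LamJ S ch d p) i

/-- The sum of the signs of the pairing with `b` over the elements of level `j` above `a` with
`q j y = 0`. -/
noncomputable def NAH (j : ℕ) (a b : CodeJ d J) : ℝ :=
  ∑ᶠ y : {y : (G → V) × (Pl → V) // AbvH S ch d p j a y ∧ q S H (chiJ ch p) j y = 0},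
    (-1 : ℝ) ^ (CTr S (chiJ ch p) y.1 (homJ ch d p b)).val

open Classical in
/-- The sum of the signs of `q (j + 1) y` over the elements `y` of level `j + 1` above `a` with
`q j (2 y) = 0`. -/
noncomputable def NTH (j : ℕ) (a : CodeJ d J) : ℝ :=
  ∑ᶠ y : {y : (G → V) × (Pl → V) // AbvH S ch d p (j + 1) a y ∧
      q S H (chiJ ch p) j ((2 : ℕ) • y) = 0},
    if q S H (chiJ ch p) (j + 1) y.1 = 0 then (1 : ℝ) else -1

end defs

section count

variable (S : Sys G V V1 Pl) (H : HData V M Pl) (chi : G → ZMod 2) (j : ℕ)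

/-- The elements counted by the recursion: level `j`, `2 ^ (j - 1) y.1` is not in the image of the
torsion, `q j y = 0`. -/
structure IsZ (y : (G → V) × (Pl → V)) : Prop where
  pr : IsPr S chi j y
  top : ¬ ∃ z : V, (2 : ℕ) ^ 2 • z = 0 ∧ ∀ s, (2 : ℕ) ^ (j - 1) • y.1 s = dl chi z s
  q0 : q S H chi j y = 0

/-- The number `S_j` of the recursion. -/
noncomputable def nH : ℕ := Nat.card {y : (G → V) × (Pl → V) // IsZ S H chi j y}

end count

section type

variable (S : Sys G V V1 Pl) (H : HData V M Pl) (ch : k[X] → G → ZMod 2) (d : TwData k V1)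
  {J : Type} [Fintype J]

/-- The additive correspondence `Th` identifies the rigid Selmer elements of level `≤ j` of `p` and
of `p'` with everything they carry; the pairing is only preserved up to level `jp`. -/
structure IsoH (j jp : ℕ) (p p' : J → k[X])
    (Th : (G → V) × (Pl → V) → (G → V) × (Pl → V) → Prop) : Prop where
  lev : ∀ y y', Th y y' → ∀ i ≤ j, (IsPr S (chiJ ch p) i y ↔ IsPr S (chiJ ch p') i y')
  left : ∀ y, IsPr S (chiJ ch p) j y → ∃ y', Th y y'
  right : ∀ y', IsPr S (chiJ ch p') j y' → ∃ y, Th y y'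
  add : ∀ y1 y1' y2 y2', Th y1 y1' → Th y2 y2' → Th (y1 + y2) (y1' + y2')
  tor : ∀ z : V, (2 : ℕ) ^ (j + 1) • z = 0 →
    Th (tor S (chiJ ch p) z) (tor S (chiJ ch p') z)
  loc : ∀ y, IsPr S (chiJ ch p) j y → y.1 = 0 → Th y y
  top : ∀ y y', Th y y' → ∀ i, 1 ≤ i → i ≤ j → ∀ a,
    (AbvH S ch d p i a y ↔ AbvH S ch d p' i a y')
  pair : ∀ y y', Th y y' → IsPr S (chiJ ch p) jp y → ∀ b ∈ SelpJ d p,
    CTr S (chiJ ch p') y' (homJ ch d p' b) = CTr S (chiJ ch p) y (homJ ch d p b)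
  qq : ∀ y y', Th y y' → IsPr S (chiJ ch p) j y →
    q S H (chiJ ch p') j y' = q S H (chiJ ch p) j y

/-- Same symbols and same data of level `≤ j` (pairing up to level `jp`). -/
def TypEqH (j jp : ℕ) (p p' : J → k[X]) : Prop :=
  SymEq d p p' ∧ ∃ Th, IsoH S H ch d j jp p p' Th

end type

/-- Directions for Theorem T: a basis `c` of `F` modulo the 2-torsion, adapted to the flag, with
`c l1 = a`; `a` alone at the direction `ia`, the code `w` alone at the direction `ib`. -/
structure SuppT (d : TwData k V1) {J : Type} (F : Set (CodeJ d J)) (L : ℕ → Set (CodeJ d J))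
    (m : ℕ) (a w : CodeJ d J) (dir : Dir m ↪ J) where
  r : ℕ
  c : Fin r → CodeJ d J
  l1 : Fin r
  e : V1
  e' : V1
  c_l1 : c l1 = a
  mem : ∀ l, c l ∈ F
  span : ∀ x ∈ F, ∃ (α : Fin r → ZMod 2) (v : V1), x = kapJ d J v + ∑ l, α l • c l
  indep : ∀ (α : Fin r → ZMod 2) (v : V1), ∑ l, α l • c l = kapJ d J v → α = 0
  adapted : ∀ i, 1 ≤ i → i ≤ m → ∀ x ∈ L i, ∃ (α : Fin r → ZMod 2) (v : V1),
    x = kapJ d J v + ∑ l, α l • c l ∧ ∀ l, α l ≠ 0 → c l ∈ L i
  supp0 : ∀ l (i : Fin m), (c l).2.2 (dir (some (some i))) = 0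
  suppa : ∀ l, (c l).2.2 (dir (some none)) = if l = l1 then e else 0
  suppb : ∀ l, (c l).2.2 (dir none) = 0
  w0 : ∀ i : Fin m, w.2.2 (dir (some (some i))) = 0
  wa : w.2.2 (dir (some none)) = 0
  wb : w.2.2 (dir none) = e'
  pair : d.e e e' = 1

section grid

variable (S : Sys G V V1 Pl) (H : HData V M Pl) (ch : k[X] → G → ZMod 2) (d : TwData k V1)

open Classical in
/-- **Theorem A** at level `j`, as a statement. -/
def GridThmA (j : ℕ) : Prop :=
  ∀ (R : ℕ) (η : ℝ), 0 < η → ∃ n₀ : ℕ, ∀ (J : Type) (_ : Fintype J) (p : J → k[X])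
    (a b : CodeJ d J) (dir : Dir j ↪ J), PVec d p →
    n₀ ≤ (∏ j, p j).natDegree →
    (Nat.card J : ℝ) ≤ 2 * Real.log (∏ j, p j).natDegree →
    (∀ i, N0 (∏ j, p j).natDegree ≤ (p (dir i)).natDegree) →
    (∀ i j, (p j).natDegree = (p (dir i)).natDegree → j = dir i) →
    (∀ i, 4 ∣ (p (dir i)).natDegree) →
    Nat.card (SelpJ d p) ≤ 2 ^ R →
    Nonempty (Supp d (SelpJ d p) (LH S ch d p) j a b dir) →
    a ∈ LH S ch d p j →
    |∑ᶠ x : (i : Dir j) → Irr k (p (dir i)).natDegree,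
        if TypEqH S H ch d j (j - 1) p (repl p dir fun i => (x i).1) then
          NAH S H ch d (repl p dir fun i => (x i).1) j a b else 0| ≤
      η * ((∏ i, (Nat.card (Irr k (p (dir i)).natDegree) : ℝ)) /
        2 ^ ((j + 2) * (d.h + (Nat.card J - (j + 2)))))

open Classical in
/-- **Theorem T** at level `j`, as a statement. -/
def GridThmT (j : ℕ) : Prop :=
  ∀ (R : ℕ) (η : ℝ), 0 < η → ∃ n₀ : ℕ, ∀ (J : Type) (_ : Fintype J) (p : J → k[X])
    (a w : CodeJ d J) (dir : Dir j ↪ J), PVec d p →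
    n₀ ≤ (∏ j, p j).natDegree →
    (Nat.card J : ℝ) ≤ 2 * Real.log (∏ j, p j).natDegree →
    (∀ i, N0 (∏ j, p j).natDegree ≤ (p (dir i)).natDegree) →
    (∀ i j, (p j).natDegree = (p (dir i)).natDegree → j = dir i) →
    (∀ i, 4 ∣ (p (dir i)).natDegree) →
    Nat.card (SelpJ d p) ≤ 2 ^ R →
    (∀ l, condJ d p w l = (p l).natDegree • a.2.2 l) →
    Nonempty (SuppT d (SelpJ d p) (LH S ch d p) j a w dir) →
    a ∈ LH S ch d p (j + 1) →
    |∑ᶠ x : (i : Dir j) → Irr k (p (dir i)).natDegree,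
        if TypEqH S H ch d j j p (repl p dir fun i => (x i).1) then
          NTH S H ch d (repl p dir fun i => (x i).1) j a else 0| ≤
      η * ((∏ i, (Nat.card (Irr k (p (dir i)).natDegree) : ℝ)) /
        2 ^ ((j + 2) * (d.h + (Nat.card J - (j + 2)))))

/-- Boundedly many classes: the vectors with the symbols of `p` are labelled by `Fin C`, and
vectors with the same label are equivalent. -/
def FewTyp (j jp : ℕ) : Prop :=
  ∀ R : ℕ, ∃ C : ℕ, ∀ (J : Type) (_ : Fintype J) (p : J → k[X]), PVec d p →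
    Nat.card (SelpJ d p) ≤ 2 ^ R → ∃ f : (J → k[X]) → Fin C, ∀ p' p'', PVec d p' → PVec d p'' →
      SymEq d p p' → SymEq d p p'' → f p' = f p'' → TypEqH S H ch d j jp p' p''

end grid

open Classical in
/-- The facts on one vector `p` used by the counting block. -/
structure HFacts [Fintype V1] (S : Sys G V V1 Pl) (H : HData V M Pl) (ch : k[X] → G → ZMod 2)
    (d : TwData k V1) {J : Type} [Fintype J] (p : J → k[X]) : Prop where
  fin : ∀ i, Finite {y : (G → V) × (Pl → V) // IsPr S (chiJ ch p) i y}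
  /-- the criterion -/
  succ : ∀ i, 1 ≤ i → ∀ a : CodeJ d J, a ∈ LH S ch d p (i + 1) ↔
    ∃ y, AbvH S ch d p i a y ∧ ∀ b ∈ SelpJ d p, CTr S (chiJ ch p) y (homJ ch d p b) = 0
  /-- the recursion -/
  recur : ∀ i, 1 ≤ i → (nH S H (chiJ ch p) (i + 1) : ℝ) ≤ Nat.card V1 * nH S H (chiJ ch p) i +
    1 / 2 * (∑ a : CodeJ d J, ∑ b : CodeJ d J,
      if a ∈ LH S ch d p i ∧ b ∈ SelpJ d p ∧ Indep2 d a b then NAH S H ch d p i a b else 0) +
    1 / 2 * (∑ a : CodeJ d J,
      if a ∈ LH S ch d p (i + 1) ∧ (∀ v, a ≠ kapJ d J v) then NTH S H ch d p i a else 0)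
  /-- `NTH = 0` if there is no code `w` -/
  zero : ∀ i, 1 ≤ i → ∀ a ∈ LH S ch d p (i + 1),
    (¬ ∃ w : CodeJ d J, ∀ l, condJ d p w l = (p l).natDegree • a.2.2 l) → NTH S H ch d p i a = 0

end Pool.Agent.SmH
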