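import Pool.Agent.Lib.SmH.L.StmtI
import Pool.Agent.Lib.SmJ.L.LFacts
import Pool.Agent.Lib.SmJ.G.TowerJ

/-!
HEIGHTS, block L: bases of the explicit Selmer group modulo the 2-torsion which are adapted to the
flag of the Selmer groups.
-/

set_option autoImplicit false

open Polynomial

namespace Pool.Agent.SmH

open Pool.Agent.SmJ
open Pool.Agent.Sm (leg Irr Dir)

section selp

variable {k : Type} [Field k] {V1 : Type} [AddCommGroup V1] [Module (ZMod 2) V1]

theorem cJ_add (d : TwData k V1) {J : Type} [Fintype J] (p : J → k[X]) (a b : CodeJ d J)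
    (j : J) : condJ d p (a + b) j = condJ d p a j + condJ d p b j := by
  simp only [condJ, Prod.fst_add, Prod.snd_add, Pi.add_apply, map_add]
  have e1 : ∀ (s : ZMod 2) (x y z w : V1),
      s • (x + y + (z + w)) = s • (x + z) + s • (y + w) := by
    intro s x y z w
    rw [← smul_add]
    congr 1
    abel
  simp only [e1, Finset.sum_add_distrib]
  abel

theorem cJ_smul (d : TwData k V1) {J : Type} [Fintype J] (p : J → k[X]) (s : ZMod 2)
    (a : CodeJ d J) (j : J) : condJ d p (s • a) j = s • condJ d p a j := by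
  simp only [condJ, Prod.smul_fst, Prod.smul_snd, Pi.smul_apply, map_smul, smul_add,
    Finset.smul_sum, smul_comm s]

/-- The explicit Selmer group as a subspace. -/
noncomputable def selpM (d : TwData k V1) {J : Type} [Fintype J] (p : J → k[X]) :
    Submodule (ZMod 2) (CodeJ d J) where
  carrier := SelpJ d p
  add_mem' := by
    intro a b ha hb j
    rw [cJ_add, ha j, hb j, add_zero]
  zero_mem' := by
    intro j
    simp [condJ]
  smul_mem' := by
    intro s a ha j
    rw [cJ_smul, ha j, smul_zero]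

theorem mem_selpM {d : TwData k V1} {J : Type} [Fintype J] {p : J → k[X]} {c : CodeJ d J} :
    c ∈ selpM d p ↔ c ∈ SelpJ d p := Iff.rfl

end selp

variable {k : Type} [Field k] {G V V1 Pl : Type} [Group G] [AddCommGroup V]
  [DistribMulAction G V] [AddCommGroup V1] [Module (ZMod 2) V1]
  {S : Sys G V V1 Pl} {ch : k[X] → G → ZMod 2} {d : TwData k V1} {J : Type} [Fintype J]
  {p : J → k[X]}

/-- The flag starting with the explicit Selmer group. -/
noncomputable def Lf (S : Sys G V V1 Pl) (h : S.Ok) (ch : k[X] → G → ZMod 2) (d : TwData k V1)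
    {J : Type} [Fintype J] (p : J → k[X]) : ℕ → Submodule (ZMod 2) (CodeJ d J)
  | 0 => selpM d p
  | 1 => selpM d p
  | i + 2 => (twJ S h ch d p).L (i + 1)

theorem lf_anti (h : S.Ok) (hc : CodeOk S ch d p) (hsub : FJ S ch d p ⊆ SelpJ d p) (j : ℕ)
    (hj : 1 ≤ j) : Lf S h ch d p (j + 1) ≤ Lf S h ch d p j := by
  match j, hj with
  | 1, _ =>
    intro a ha
    exact hsub ((mem_Lfl_iff_tw h hc le_rfl a).mpr ha)
  | j + 2, _ => exact Sm.Tower.L_succ_le (twJ_ok h hc) (Nat.succ_le_succ (Nat.zero_le j))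

theorem mem_lf (h : S.Ok) (hc : CodeOk S ch d p) {i : ℕ} (hi : 1 ≤ i) (a : CodeJ d J) :
    a ∈ Lf S h ch d p (i + 1) ↔ a ∈ LH S ch d p i := by
  obtain ⟨i, rfl⟩ := Nat.exists_eq_add_of_le' hi
  rw [LH, mem_Lfl_iff_tw h hc hi]
  exact Iff.rfl

theorem lh_sub_selp (h : S.Ok) (hc : CodeOk S ch d p) (hsub : FJ S ch d p ⊆ SelpJ d p) {i : ℕ}
    (hi : 1 ≤ i) : LH S ch d p i ⊆ SelpJ d p :=
  fun _ ha => hsub (Lfl_sub_FJ h hc hi ha)

/-- The basis for Theorem A. -/
theorem exists_basA (h : S.Ok) (hc : CodeOk S ch d p) (hsub : FJ S ch d p ⊆ SelpJ d p) {m : ℕ}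
    (hm : 1 ≤ m) {a b : CodeJ d J} (ha : a ∈ LH S ch d p m) (hb : b ∈ SelpJ d p)
    (hI : Indep2 d a b) : Nonempty (Bas d (SelpJ d p) (LH S ch d p) m a b) := by
  have hfin : Finite (CodeJ d J) := (twJ_ok h hc).fin
  have hI' := (indep2_iff h hc a b).mp hI
  obtain ⟨r, cc, la, lb, β, had, h1, h2, h3, h4, h5⟩ := Sm.exists_adapted (selpM d p)
    (Lf S h ch d p) (twJ S h ch d p).Kp (k := m + 1) (by omega) rfl
    (fun j hj _ => lf_anti h hc hsub j hj)
    (by
      intro x hx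
      rw [mem_lf h hc hm, LH, mem_Lfl_iff_tw h hc hm]
      exact Sm.Tower.kp_le_L (twJ_ok h hc) hm hx)
    ((mem_lf h hc hm a).mpr ha) hb hI'.1 hI'.2.1 hI'.2.2
  have hsp : ∀ x ∈ SelpJ d p, ∃ (α : Fin r → ZMod 2) (w : V1),
      x = kapJ d J w + ∑ l, α l • cc l := by
    intro x hx
    obtain ⟨α, hα⟩ := had.span x hx
    obtain ⟨w, hw⟩ := (mem_twJ_Kp h hc _).mp hα
    exact ⟨α, w, by rw [← hw, sub_add_cancel]⟩
  refine ⟨⟨r, cc, la, lb, h5.symm, h1, had.mem, hsp,
    fun α w hα => had.indep α ((mem_twJ_Kp h hc _).mpr ⟨w, hα⟩), ?_, β, h2, h3, h4⟩⟩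
  intro i hi him x hx
  obtain ⟨α, w, hxe⟩ := hsp x (lh_sub_selp h hc hsub hi hx)
  refine ⟨α, w, hxe, fun l hl => ?_⟩
  rw [← mem_lf h hc hi] at hx ⊢
  refine had.adapt (i + 1) (by omega) (by omega) α ?_ l hl
  have h6 : ∑ l, α l • cc l = x - kapJ d J w := by rw [hxe, add_sub_cancel_left]
  rw [h6]
  refine Submodule.sub_mem _ hx ?_
  rw [mem_lf h hc hi]
  exact kapJ_mem_Lfl h hc hi w

/-- The basis for Theorem T: the structure `Bas` without `b`. -/
structure BasT (d : TwData k V1) {J : Type} (F : Set (CodeJ d J)) (L : ℕ → Set (CodeJ d J))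
    (m : ℕ) (a : CodeJ d J) where
  r : ℕ
  c : Fin (r + 1) → CodeJ d J
  c_0 : c 0 = a
  mem : ∀ l, c l ∈ F
  span : ∀ x ∈ F, ∃ (α : Fin (r + 1) → ZMod 2) (v : V1), x = kapJ d J v + ∑ l, α l • c l
  indep : ∀ (α : Fin (r + 1) → ZMod 2) (v : V1), ∑ l, α l • c l = kapJ d J v → α = 0
  adapted : ∀ i, 1 ≤ i → i ≤ m → ∀ x ∈ L i, ∃ (α : Fin (r + 1) → ZMod 2) (v : V1),
    x = kapJ d J v + ∑ l, α l • c l ∧ ∀ l, α l ≠ 0 → c l ∈ L i

theorem exists_basT (h : S.Ok) (hc : CodeOk S ch d p) (hsub : FJ S ch d p ⊆ SelpJ d p) {m : ℕ}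
    (hm : 1 ≤ m) {a : CodeJ d J} (ha : a ∈ LH S ch d p m) (hk : ∀ v, a ≠ kapJ d J v) :
    Nonempty (BasT d (SelpJ d p) (LH S ch d p) m a) := by
  have hz : ∀ x : ZMod 2, x = 0 ∨ x = 1 := by decide
  by_cases hex : ∃ b ∈ SelpJ d p, Indep2 d a b
  · obtain ⟨b, hb, hI⟩ := hex
    obtain ⟨B⟩ := exists_basA h hc hsub hm ha hb hI
    obtain ⟨r, hr⟩ : ∃ r, B.r = r + 1 :=
      ⟨B.r - 1, by have := B.l1.2; omega⟩
    obtain ⟨r', c, l1, l0, ne, c_l1, mem, span, indep, adapted, β, b_eq, β1, β0⟩ := B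
    obtain rfl : r' = r + 1 := hr
    -- move `l1` to `0`
    let e : Fin (r + 1) ≃ Fin (r + 1) := Equiv.swap 0 l1
    have hsum : ∀ α : Fin (r + 1) → ZMod 2, ∑ l, α (e l) • c (e l) = ∑ l, α l • c l :=
      fun α => Equiv.sum_comp e fun l => α l • c l
    refine ⟨⟨r, fun l => c (e l), ?_, fun l => mem _, ?_, ?_, ?_⟩⟩
    · rw [Equiv.swap_apply_left, c_l1]
    · intro x hx
      obtain ⟨α, v, hα⟩ := span x hx
      exact ⟨fun l => α (e l), v, by rw [hα, hsum]⟩
    · intro α v hα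
      have h1 : ∑ l, α (e.symm l) • c l = kapJ d J v := by
        rw [← hα, ← Equiv.sum_comp e]
        exact Finset.sum_congr rfl fun l _ => by rw [Equiv.symm_apply_apply]
      have h2 := indep (fun l => α (e.symm l)) v h1
      funext l
      have h3 := congrFun h2 (e l)
      simpa using h3
    · intro i hi him x hx
      obtain ⟨α, v, hα, hl⟩ := adapted i hi him x hx
      exact ⟨fun l => α (e l), v, by rw [hα, hsum], fun l hh => hl _ hh⟩
  · push Not at hex
    have hcase : ∀ x ∈ SelpJ d p, ∃ (s : ZMod 2) (v : V1), x = kapJ d J v + s • a := by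
      intro x hx
      have h1 := hex x hx
      unfold Indep2 at h1
      push Not at h1
      obtain ⟨s, t, v, h2, h3⟩ := h1
      rcases hz t with rfl | rfl
      · exfalso
        rcases hz s with rfl | rfl
        · exact h3 rfl rfl
        · rw [one_smul, zero_smul, add_zero] at h2
          exact hk v h2
      · refine ⟨s, v, ?_⟩
        rw [← h2, one_smul, add_comm (s • a) x, add_assoc, ← add_smul]
        have h4 : s + s = 0 := CharTwo.add_self_eq_zero s
        rw [h4, zero_smul, add_zero]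
    refine ⟨⟨0, fun _ => a, rfl, fun _ => lh_sub_selp h hc hsub hm ha, ?_, ?_, ?_⟩⟩
    · intro x hx
      obtain ⟨s, v, hx'⟩ := hcase x hx
      exact ⟨fun _ => s, v, by simpa using hx'⟩
    · intro α v hα
      rw [Fin.sum_univ_one] at hα
      rcases hz (α 0) with h0 | h0
      · funext l
        have : l = 0 := Fin.ext (by omega)
        rw [this, h0]
        rfl
      · rw [h0, one_smul] at hα
        exact absurd hα (hk v)
    · intro i hi him x hx
      obtain ⟨s, v, hx'⟩ := hcase x (lh_sub_selp h hc hsub hi hx)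
      exact ⟨fun _ => s, v, by simpa using hx', fun _ _ => Lfl_anti h hc hi him ha⟩

end Pool.Agent.SmH
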