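import Pool.Agent.Lib.SmH.L.StmtI
import Pool.Agent.Lib.SmH.G.Pr
import Pool.Agent.Lib.SmJ.G.TowerJ
import Pool.Agent.Lib.SmJ.L.TypJ

/-!
HEIGHTS, block L: the flag and the weights are constant on the classes of `TypEqH`.
-/

set_option autoImplicit false

open Polynomial

namespace Pool.Agent.SmH

open Pool.Agent.SmJ
open Pool.Agent.Sm (leg Irr Dir)

variable {k : Type} [Field k] {G V V1 Pl M : Type} [Group G] [AddCommGroup V]
  [DistribMulAction G V] [AddCommGroup V1] [Module (ZMod 2) V1] [AddCommGroup M]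
  [DistribMulAction G M]
  {S : Sys G V V1 Pl} {H : HData V M Pl} {ch : k[X] → G → ZMod 2} {d : TwData k V1}
  {J : Type} [Fintype J] {p p' : J → k[X]}

/-- Every Selmer cocycle has local points. -/
theorem exists_pair_of_sel {chi : G → ZMod 2} {i : ℕ} {Psi : G → V} (hP : S.IsSel chi i Psi) :
    ∃ Q : Pl → V, IsPr S chi i (Psi, Q) := by
  classical
  choose Q hQ using hP.loc
  exact ⟨fun v => if v ∈ S.good then 0 else Q v, hP,
    fun v hv => by
      change ∀ s ∈ S.D v, Psi s = dl chi (if v ∈ S.good then 0 else Q v) s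
      rw [if_neg hv]
      exact hQ v,
    fun v hv => if_pos hv⟩

/-- The flag in terms of the rigid elements. -/
theorem mem_LH (h : S.Ok) (hc : CodeOk S ch d p) {i : ℕ} (hi : 1 ≤ i) (a : CodeJ d J) :
    a ∈ LH S ch d p i ↔ ∃ y, AbvH S ch d p i a y := by
  rw [LH, mem_Lfl_iff h hc hi]
  constructor
  · rintro ⟨Psi, hP, ha⟩
    obtain ⟨Q, hQ⟩ := exists_pair_of_sel hP
    exact ⟨(Psi, Q), hQ, ha⟩
  · rintro ⟨y, hy, ha⟩
    exact ⟨y.1, hy.sel, ha⟩

theorem lh_sub_of_typ (h : S.Ok) (hc : CodeOk S ch d p) (hc' : CodeOk S ch d p') {j jp : ℕ}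
    (hT : TypEqH S H ch d j jp p p') {i : ℕ} (hi : 1 ≤ i) (hij : i ≤ j) :
    LH S ch d p i ⊆ LH S ch d p' i := by
  intro a ha
  obtain ⟨-, Th, hTh⟩ := hT
  obtain ⟨y, hy⟩ := (mem_LH h hc hi a).1 ha
  obtain ⟨y', hy'⟩ := hTh.left y (hy.1.mono hij)
  exact (mem_LH h hc' hi a).2 ⟨y', (hTh.top y y' hy' i hi hij a).1 hy⟩

theorem lh_succ_sub_of_typ [Fintype V1]
    (hf : HFacts S H ch d p) (hf' : HFacts S H ch d p') (hS : SelpJ d p = SelpJ d p') {j : ℕ}
    (hj : 1 ≤ j) (hT : TypEqH S H ch d j j p p') :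
    LH S ch d p (j + 1) ⊆ LH S ch d p' (j + 1) := by
  intro a ha
  obtain ⟨-, Th, hTh⟩ := hT
  obtain ⟨y, hy, hb⟩ := (hf.succ j hj a).1 ha
  obtain ⟨y', hy'⟩ := hTh.left y hy.1
  refine (hf'.succ j hj a).2 ⟨y', (hTh.top y y' hy' j hj le_rfl a).1 hy, fun b hb' => ?_⟩
  rw [← hS] at hb'
  rw [hTh.pair y y' hy' hy.1 b hb']
  exact hb b hb'

end Pool.Agent.SmH
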