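import Pool.Agent.Lib.SmJ.L.TypJ
import Pool.Agent.Lib.SmH.JG.Main

/-!
HEIGHTS, block L: typical vectors of primes in the strong sense (`JG.TypH` in codes over `J`).
-/

set_option autoImplicit false

open Polynomial

namespace Pool.Agent.SmH

open Pool.Agent.SmJ
open Pool.Agent.BSDP.R (primesOf)
open Pool.Agent.Sm (leg Irr PD)

variable {k : Type} [Field k] {V1 : Type} [AddCommGroup V1] [Module (ZMod 2) V1]
  {d : TwData k V1} {J : Type} [Fintype J]

/-- (T1), (T2) and (T6) in codes over `J`. -/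
structure TypHV (d : TwData k V1) {J : Type} [Fintype J] (p : J → k[X]) (R kk N0 : ℕ) : Prop where
  typ : TypJ d p R kk N0
  genericH : ∀ (r : ℕ) (c : Fin (r + 1) → CodeJ d J) (w : CodeJ d J), (∀ i, c i ∈ SelpJ d p) →
    IndepJ d c → (∀ l, condJ d p w l = (p l).natDegree • (c 0).2.2 l) →
    ∀ (v : Fin (r + 1) → V1) (v' : V1), kk ≤ Nat.card {j : J // N0 ≤ (p j).natDegree ∧
      4 ∣ (p j).natDegree ∧ (∀ i, (c i).2.2 j = v i) ∧ w.2.2 j = v'}

theorem toC_sum {p : J → k[X]} (hp : PVec d p) {r : ℕ} (α : Fin r → ZMod 2)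
    (c : Fin r → CodeJ d J) : toC hp (∑ l, α l • c l) = ∑ l, α l • toC hp (c l) := by
  refine Prod.ext ?_ (Prod.ext ?_ ?_)
  · simp [toC, Prod.fst_sum]
  · simp [toC, Prod.fst_sum, Prod.snd_sum]
  · simp only [toC, Equiv.coe_fn_mk, Prod.snd_sum]
    funext P
    simp [Finset.sum_apply]

theorem indep_toC {p : J → k[X]} (hp : PVec d p) {r : ℕ} {c : Fin r → CodeJ d J}
    (hi : IndepJ d c) : IndepMod d (∏ j, p j) fun i => toC hp (c i) := by
  rintro α ⟨w, hw⟩
  refine hi α w ?_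
  apply (toC hp).injective
  rw [toC_sum, hw]
  rfl

theorem typHV_of_typH {p : J → k[X]} (hp : PVec d p) {R kk N : ℕ}
    (h : JG.TypH d (∏ j, p j) R kk 2 N) : TypHV d p R kk N where
  typ := typJ_of_typ hp h.typ
  genericH r c w hc hi hw v v' := by
    have h1 := h.genericH r (fun i => toC hp (c i)) (toC hp w)
      (fun i => (toC_mem hp _).2 (hc i)) (indep_toC hp hi) (fun P => by
        rw [cond_toC, hw, eqJ_spec hp P, Nat.cast_smul_eq_nsmul]
        rfl) v v'
    refine le_trans h1 (le_of_eq ?_)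
    refine Nat.card_congr ((eqJ hp).subtypeEquiv fun P => ?_)
    rw [eqJ_spec hp P]
    rfl

theorem TypHV.of_symEq [Finite k] (h2 : (2 : k) ≠ 0) {p p' : J → k[X]} (hp : PVec d p)
    (hp' : PVec d p') (h : SymEq d p p') {R kk N0 : ℕ} (ht : TypHV d p R kk N0) :
    TypHV d p' R kk N0 where
  typ := ht.typ.of_symEq h2 hp hp' h
  genericH r c w hc hi hw v v' := by
    have h1 := ht.genericH r c w (fun i => by rw [selpJ_symEq h2 hp hp' h]; exact hc i) hi
      (fun l => by rw [condJ_symEq h2 hp hp' h, hw l, h.deg l]) v v'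
    simpa only [h.deg] using h1

end Pool.Agent.SmH
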