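import Pool.Agent.Lib.SmH.L.BasH
import Pool.Agent.Lib.SmH.L.TypV
import Pool.Agent.Lib.SmJ.L.DirChoice

/-!
HEIGHTS, block L: the choice of the directions for Theorem T.
-/

set_option autoImplicit false

open Polynomial

namespace Pool.Agent.SmH

open Pool.Agent.SmJ
open Pool.Agent.Sm (leg Irr PD Dir)

variable {k : Type} [Field k] {V1 : Type} [AddCommGroup V1] [Module (ZMod 2) V1] [Nontrivial V1]
  {d : TwData k V1} {J : Type} [Fintype J]

theorem exists_pair (d : TwData k V1) : ∃ e e' : V1, e ≠ 0 ∧ e' ≠ 0 ∧ d.e e e' = 1 := by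
  obtain ⟨e', he0'⟩ := exists_ne (0 : V1)
  obtain ⟨e, hpair⟩ : ∃ e, d.e e e' = 1 := by
    by_contra h
    push Not at h
    apply he0'
    apply d.nd
    intro y
    have h1 : ∀ a : ZMod 2, a ≠ 1 → a = 0 := by decide
    exact h1 _ (h y)
  refine ⟨e, e', ?_, he0', hpair⟩
  rintro rfl
  rw [map_zero, LinearMap.zero_apply] at hpair
  exact absurd hpair (by decide)

theorem exists_suppT {p : J → k[X]} {R kk N : ℕ} (ht : TypHV d p R kk N)
    {L : ℕ → Set (CodeJ d J)} {m : ℕ} {a w : CodeJ d J} (hmk : m ≤ kk)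
    (hkk : 1 ≤ kk) (hw : ∀ l, condJ d p w l = (p l).natDegree • a.2.2 l)
    (B : BasT d (SelpJ d p) L m a) :
    ∃ dir : Dir m ↪ J, (∀ i, N ≤ (p (dir i)).natDegree ∧ 4 ∣ (p (dir i)).natDegree) ∧
      Nonempty (SuppT d (SelpJ d p) L m a w dir) := by
  classical
  obtain ⟨e, e', he0, he0', hpair⟩ := exists_pair d
  have hgen := ht.genericH B.r B.c w B.mem B.indep (fun l => by rw [B.c_0]; exact hw l)
  -- the three patterns
  have h0 := hgen (fun _ => 0) 0
  have ha := hgen (fun l => if l = 0 then e else 0) 0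
  have hb := hgen (fun _ => 0) e'
  obtain ⟨ja, hja1, hja2, hja3, hja4⟩ : ∃ j : J, N ≤ (p j).natDegree ∧ 4 ∣ (p j).natDegree ∧
      (∀ i, (B.c i).2.2 j = if i = 0 then e else 0) ∧ w.2.2 j = 0 := by
    have h1 : 0 < Nat.card {j : J // N ≤ (p j).natDegree ∧ 4 ∣ (p j).natDegree ∧
      (∀ i, (B.c i).2.2 j = if i = 0 then e else 0) ∧ w.2.2 j = 0} := by omega
    obtain ⟨⟨j, hj⟩⟩ := (Nat.card_pos_iff.1 h1).1
    exact ⟨j, hj⟩
  obtain ⟨jb, hjb1, hjb2, hjb3, hjb4⟩ : ∃ j : J, N ≤ (p j).natDegree ∧ 4 ∣ (p j).natDegree ∧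
      (∀ i, (B.c i).2.2 j = 0) ∧ w.2.2 j = e' := by
    have h1 : 0 < Nat.card {j : J // N ≤ (p j).natDegree ∧ 4 ∣ (p j).natDegree ∧
      (∀ i, (B.c i).2.2 j = 0) ∧ w.2.2 j = e'} := by omega
    obtain ⟨⟨j, hj⟩⟩ := (Nat.card_pos_iff.1 h1).1
    exact ⟨j, hj⟩
  set A0 := {j : J // N ≤ (p j).natDegree ∧ 4 ∣ (p j).natDegree ∧
    (∀ i, (B.c i).2.2 j = 0) ∧ w.2.2 j = 0} with hA0
  have hA0card : Fintype.card (Fin m) ≤ Fintype.card A0 := by
    rw [Fintype.card_fin, ← Nat.card_eq_fintype_card]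
    exact le_trans hmk h0
  obtain ⟨f⟩ := Function.Embedding.nonempty_of_card_le hA0card
  have hfa : ∀ i, ((f i).1 : J) ≠ ja := by
    intro i h
    have h1 := (f i).2.2.2.1 0
    rw [h, hja3, if_pos rfl] at h1
    exact he0 h1
  have hfb : ∀ i, ((f i).1 : J) ≠ jb := by
    intro i h
    have h1 := (f i).2.2.2.2
    rw [h, hjb4] at h1
    exact he0' h1
  have hab : ja ≠ jb := by
    intro h
    have h1 := hja4
    rw [h, hjb4] at h1
    exact he0' h1
  let g : Dir m → J := fun x => match x with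
    | none => jb
    | some none => ja
    | some (some i) => (f i).1
  have hg : Function.Injective g := by
    rintro (_ | _ | i) (_ | _ | i') h
    · rfl
    · exact absurd h.symm hab
    · exact absurd h.symm (hfb i')
    · exact absurd h hab
    · rfl
    · exact absurd h.symm (hfa i')
    · exact absurd h (hfb i)
    · exact absurd h (hfa i)
    · have h1 : f i = f i' := Subtype.ext h
      rw [f.injective h1]
  refine ⟨⟨g, hg⟩, ?_, ⟨{
    r := B.r + 1
    c := B.c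
    l1 := 0
    e := e
    e' := e'
    c_l1 := B.c_0
    mem := B.mem
    span := B.span
    indep := B.indep
    adapted := B.adapted
    supp0 := fun l i => (f i).2.2.2.1 l
    suppa := hja3
    suppb := hjb3
    w0 := fun i => (f i).2.2.2.2
    wa := hja4
    wb := hjb4
    pair := hpair }⟩⟩
  rintro (_ | _ | i)
  · exact ⟨hjb1, hjb2⟩
  · exact ⟨hja1, hja2⟩
  · exact ⟨(f i).2.1, (f i).2.2.1⟩

end Pool.Agent.SmH
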