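import Pool.Agent.Lib.SmH.L.StmtI
import Pool.Agent.Lib.SmJ.L.DirSum

/-!
HEIGHTS, block L: Theorems A and T for the points of a grid `(Ds, T)` with fixed coordinates off the
directions.
-/

set_option autoImplicit false

open Polynomial

namespace Pool.Agent.SmH

open Pool.Agent.SmJ
open Pool.Agent.Sm (leg Irr PD Dir JG vecG vecG_deg_inr N0 repl repl_dir repl_off putG putG_dir putG_off
  vecG_putG fsum fsum_eq fsum_congr)

section conv

variable {k : Type} [Field k]

open Classical in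
theorem dir_conv [∀ n, Fintype (Irr k n)] {g : k[X] × Finset ℕ} {I : Type} [Fintype I]
    (tt : I ↪ g.2) (P : SmK.Pts k g.2) (C : (JG g → k[X]) → Prop) (F : (JG g → k[X]) → ℝ) :
    fsum (fun x : SmK.Pts k g.2 => (∀ t, (∀ i, tt i ≠ t) → x t = P t) ∧ C (vecG g x))
      (fun x => F (vecG g x)) =
    ∑ᶠ y : (i : I) → Irr k (vecG g P ((tt.trans Function.Embedding.inr) i)).natDegree,
      if C (repl (vecG g P) (tt.trans Function.Embedding.inr) fun i => (y i).1) then
        F (repl (vecG g P) (tt.trans Function.Embedding.inr) fun i => (y i).1) else 0 := by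
  rw [finsum_eq_sum_of_fintype, fsum_eq, ← Finset.sum_filter]
  symm
  refine Finset.sum_bij (fun y _ => putG tt P y) ?_ ?_ ?_ ?_
  · intro y hy
    simp only [Finset.mem_filter, Finset.mem_univ, true_and] at hy ⊢
    refine ⟨fun t ht => putG_off tt P y ht, ?_⟩
    rw [vecG_putG]
    exact hy
  · intro y _ y' _ h
    funext i
    apply Subtype.ext
    have h1 := putG_dir tt P y i
    have h2 := putG_dir tt P y' i
    rw [h] at h1
    rw [← h1, ← h2]
  · intro x hx
    simp only [Finset.mem_filter, Finset.mem_univ, true_and] at hx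
    have hx1 : ∀ i : I, (x (tt i)).1 ∈ Irr k (vecG g P (Sum.inr (tt i))).natDegree := by
      intro i
      rw [vecG_deg_inr]
      exact (x (tt i)).2
    have h1 : putG tt P (fun i => ⟨(x (tt i)).1, hx1 i⟩) = x := by
      funext t
      by_cases h : ∃ i, tt i = t
      · obtain ⟨i, rfl⟩ := h
        exact Subtype.ext (putG_dir tt P _ i)
      · rw [putG_off tt P _ fun i hi => h ⟨i, hi⟩, hx.1 t fun i hi => h ⟨i, hi⟩]
    refine ⟨fun i => ⟨(x (tt i)).1, hx1 i⟩, ?_, h1⟩
    simp only [Finset.mem_filter, Finset.mem_univ, true_and]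
    have h2 := vecG_putG tt P (fun i => ⟨(x (tt i)).1, hx1 i⟩)
    rw [h1] at h2
    have h3 := hx.2
    rw [h2] at h3
    exact h3
  · intro y _
    rw [vecG_putG]

end conv

variable {k : Type} [Field k] {G V V1 Pl M : Type} [Group G] [AddCommGroup V]
  [DistribMulAction G V] [AddCommGroup V1] [Module (ZMod 2) V1] [AddCommGroup M]
  [DistribMulAction G M]

/-- The conditions on the vector of a point which do not depend on the theorem. -/
theorem point_facts [Finite k] {d : TwData k V1} {n : ℕ} {g : k[X] × Finset ℕ}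
    (hN : ∀ P ∈ badP d, P.natDegree < N0 n) (hg : SmK.IsGrid (badP d) (N0 n) n g)
    (hfew : ((Nat.card (PD g.1) + g.2.card : ℕ) : ℝ) ≤ 2 * Real.log n)
    {m : ℕ} (tt : Dir m ↪ g.2) (P : SmK.Pts k g.2) (h4 : ∀ i, 4 ∣ (tt i : ℕ)) :
    (∏ j, vecG g P j).natDegree = n ∧
    (Nat.card (JG g) : ℝ) ≤ 2 * Real.log (∏ j, vecG g P j).natDegree ∧
    (∀ i, N0 (∏ j, vecG g P j).natDegree ≤
      (vecG g P ((tt.trans Function.Embedding.inr) i)).natDegree) ∧
    (∀ i j, (vecG g P j).natDegree = (vecG g P ((tt.trans Function.Embedding.inr) i)).natDegree →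
      j = (tt.trans Function.Embedding.inr) i) ∧
    (∀ i, 4 ∣ (vecG g P ((tt.trans Function.Embedding.inr) i)).natDegree) ∧
    (∏ i : Dir m, (Nat.card (Irr k
      (vecG g P ((tt.trans Function.Embedding.inr) i)).natDegree) : ℝ)) =
      ∏ i, (Nat.card (Irr k (tt i : ℕ)) : ℝ) ∧
    (m + 2) * (d.h + (Nat.card (JG g) - (m + 2))) =
      (m + 2) * (d.h + Nat.card (PD g.1) + (g.2.card - (m + 2))) := by
  have hprod := prod_vecG hg P
  have hev := (SmK.ev_mem (badP_irr d) hN hg P).1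
  have hdeg : (∏ j, vecG g P j).natDegree = n := by
    rw [hprod]
    exact (SmK.mem_DD.1 hev).2.1
  have hJcard : Nat.card (JG g) = Nat.card (PD g.1) + g.2.card := by
    rw [Nat.card_sum, Nat.card_eq_fintype_card (α := g.2), Fintype.card_coe]
  have hm2 : m + 2 ≤ g.2.card := by
    have h1 := Fintype.card_le_of_embedding tt
    rw [Fintype.card_coe, Fintype.card_option, Fintype.card_option, Fintype.card_fin] at h1
    exact h1
  refine ⟨hdeg, ?_, ?_, ?_, ?_, ?_, ?_⟩
  · rw [hdeg, hJcard]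
    exact hfew
  · intro i
    rw [hdeg]
    change N0 n ≤ (vecG g P (Sum.inr (tt i))).natDegree
    rw [vecG_deg_inr]
    exact hg.large _ (tt i).2
  · rintro i (Q | t) h
    · exfalso
      change Q.1.natDegree = (vecG g P (Sum.inr (tt i))).natDegree at h
      rw [vecG_deg_inr] at h
      have h1 := hg.small Q.1 Q.2
      have h2 := hg.large _ (tt i).2
      omega
    · change (vecG g P (Sum.inr t)).natDegree = (vecG g P (Sum.inr (tt i))).natDegree at h
      rw [vecG_deg_inr, vecG_deg_inr] at h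
      have h1 : t = tt i := Subtype.ext h
      rw [h1]
      rfl
  · intro i
    change 4 ∣ (vecG g P (Sum.inr (tt i))).natDegree
    rw [vecG_deg_inr]
    exact h4 i
  · refine Finset.prod_congr rfl fun i _ => ?_
    have h1 : (vecG g P ((tt.trans Function.Embedding.inr) i)).natDegree = (tt i : ℕ) :=
      vecG_deg_inr P (tt i)
    rw [h1]
  · rw [hJcard]
    congr 1
    omega

variable (S : Sys G V V1 Pl) (H : HData V M Pl) (ch : k[X] → G → ZMod 2) (d : TwData k V1)

theorem dir_sumA [Finite k] [∀ n, Fintype (Irr k n)] (m : ℕ) (hG : GridThmA S H ch d m) (R : ℕ)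
    (η : ℝ) (hη : 0 < η) :
    ∃ n₀ : ℕ, ∀ n ≥ n₀, ∀ g : k[X] × Finset ℕ, (∀ P ∈ badP d, P.natDegree < N0 n) →
    SmK.IsGrid (badP d) (N0 n) n g →
    ((Nat.card (PD g.1) + g.2.card : ℕ) : ℝ) ≤ 2 * Real.log n →
    ∀ (a b : CodeJ d (JG g)) (tt : Dir m ↪ g.2) (P : SmK.Pts k g.2),
    (∀ i, 4 ∣ (tt i : ℕ)) →
    Nat.card (SelpJ d (vecG g P)) ≤ 2 ^ R →
    Nonempty (Supp d (SelpJ d (vecG g P)) (LH S ch d (vecG g P))
      m a b (tt.trans Function.Embedding.inr)) →
    a ∈ LH S ch d (vecG g P) m →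
    |fsum (fun x : SmK.Pts k g.2 =>
        (∀ t, (∀ i, tt i ≠ t) → x t = P t) ∧ TypEqH S H ch d m (m - 1) (vecG g P) (vecG g x))
          (fun x => NAH S H ch d (vecG g x) m a b)| ≤
      η * ((∏ i, (Nat.card (Irr k (tt i : ℕ)) : ℝ)) /
        2 ^ ((m + 2) * (d.h + Nat.card (PD g.1) + (g.2.card - (m + 2))))) := by
  classical
  obtain ⟨n₀, hn₀⟩ := hG R η hη
  refine ⟨n₀, fun n hn g hN hg hfew a b tt P h4 hR hsupp ha => ?_⟩
  obtain ⟨hdeg, hf, hl, hd, h4', hpr, hexp⟩ := point_facts hN hg hfew tt P h4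
  have key := hn₀ (JG g) inferInstance (vecG g P) a b (tt.trans Function.Embedding.inr)
    (pvec_vecG hN hg P) (by rw [hdeg]; exact hn) hf hl hd h4' hR hsupp ha
  rw [hexp, hpr] at key
  refine le_trans (le_of_eq ?_) key
  congr 1
  exact dir_conv tt P (fun v => TypEqH S H ch d m (m - 1) (vecG g P) v)
    (fun v => NAH S H ch d v m a b)

theorem dir_sumT [Finite k] [∀ n, Fintype (Irr k n)] (m : ℕ) (hG : GridThmT S H ch d m) (R : ℕ)
    (η : ℝ) (hη : 0 < η) :
    ∃ n₀ : ℕ, ∀ n ≥ n₀, ∀ g : k[X] × Finset ℕ, (∀ P ∈ badP d, P.natDegree < N0 n) →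
    SmK.IsGrid (badP d) (N0 n) n g →
    ((Nat.card (PD g.1) + g.2.card : ℕ) : ℝ) ≤ 2 * Real.log n →
    ∀ (a w : CodeJ d (JG g)) (tt : Dir m ↪ g.2) (P : SmK.Pts k g.2),
    (∀ i, 4 ∣ (tt i : ℕ)) →
    Nat.card (SelpJ d (vecG g P)) ≤ 2 ^ R →
    (∀ l, condJ d (vecG g P) w l = (vecG g P l).natDegree • a.2.2 l) →
    Nonempty (SuppT d (SelpJ d (vecG g P)) (LH S ch d (vecG g P))
      m a w (tt.trans Function.Embedding.inr)) →
    a ∈ LH S ch d (vecG g P) (m + 1) →
    |fsum (fun x : SmK.Pts k g.2 =>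
        (∀ t, (∀ i, tt i ≠ t) → x t = P t) ∧ TypEqH S H ch d m m (vecG g P) (vecG g x))
          (fun x => NTH S H ch d (vecG g x) m a)| ≤
      η * ((∏ i, (Nat.card (Irr k (tt i : ℕ)) : ℝ)) /
        2 ^ ((m + 2) * (d.h + Nat.card (PD g.1) + (g.2.card - (m + 2))))) := by
  classical
  obtain ⟨n₀, hn₀⟩ := hG R η hη
  refine ⟨n₀, fun n hn g hN hg hfew a w tt P h4 hR hw hsupp ha => ?_⟩
  obtain ⟨hdeg, hf, hl, hd, h4', hpr, hexp⟩ := point_facts hN hg hfew tt P h4
  have key := hn₀ (JG g) inferInstance (vecG g P) a w (tt.trans Function.Embedding.inr)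
    (pvec_vecG hN hg P) (by rw [hdeg]; exact hn) hf hl hd h4' hR hw hsupp ha
  rw [hexp, hpr] at key
  refine le_trans (le_of_eq ?_) key
  congr 1
  exact dir_conv tt P (fun v => TypEqH S H ch d m m (vecG g P) v)
    (fun v => NTH S H ch d v m a)

end Pool.Agent.SmH
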