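import Pool.Agent.Lib.SmH.L.LevelGen
import Pool.Agent.Lib.SmH.L.DirSumH
import Pool.Agent.Lib.SmH.L.DirH
import Pool.Agent.Lib.SmH.L.ClassH
import Pool.Agent.Lib.SmJ.L.LevelSum
import Pool.Agent.Lib.SmJ.I.Code

/-!
HEIGHTS, block L: the two sums of signs of the recursion are small on every grid.
-/

set_option autoImplicit false

open Polynomial

namespace Pool.Agent.SmH

open Pool.Agent.SmJ
open Pool.Agent.Sm (leg Irr PD Dir JG vecG vecG_deg_inr N0 fsum fsum_eq fsum_congr)

variable {k : Type} [Field k] {G V V1 Pl M : Type} [Group G] [AddCommGroup V]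
  [DistribMulAction G V] [AddCommGroup V1] [Module (ZMod 2) V1] [AddCommGroup M]
  [DistribMulAction G M]

/-- `TypEqH` is an equivalence relation. -/
structure EqvH (S : Sys G V V1 Pl) (H : HData V M Pl) (ch : k[X] → G → ZMod 2) (d : TwData k V1)
    (j jp : ℕ) : Prop where
  refl : ∀ (J : Type) (_ : Fintype J) (_ : Nonempty J) (p : J → k[X]), PVec d p →
    TypEqH S H ch d j jp p p
  symm : ∀ (J : Type) (_ : Fintype J) (_ : Nonempty J) (p p' : J → k[X]), PVec d p →
    PVec d p' → TypEqH S H ch d j jp p p' → TypEqH S H ch d j jp p' p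
  trans : ∀ (J : Type) (_ : Fintype J) (_ : Nonempty J) (p p' p'' : J → k[X]), PVec d p →
    PVec d p' → PVec d p'' → TypEqH S H ch d j jp p p' → TypEqH S H ch d j jp p' p'' →
    TypEqH S H ch d j jp p p''

section parts

variable (S : Sys G V V1 Pl) (H : HData V M Pl) (ch : k[X] → G → ZMod 2) (d : TwData k V1)
  {J : Type} [Fintype J] (p : J → k[X])

/-- The pairs of the first sum. -/
def CondA (m : ℕ) (q : CodeJ d J × CodeJ d J) : Prop :=
  q.1 ∈ LH S ch d p m ∧ q.2 ∈ SelpJ d p ∧ Indep2 d q.1 q.2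

/-- The codes of the second sum. -/
def CondT (m : ℕ) (a : CodeJ d J) : Prop :=
  (a ∈ LH S ch d p (m + 1) ∧ (∀ v, a ≠ kapJ d J v)) ∧
    ∃ w : CodeJ d J, ∀ l, condJ d p w l = (p l).natDegree • a.2.2 l

/-- A fixed instance for the codes. -/
@[reducible] noncomputable def codeFin1 [Fintype V1] (d : TwData k V1) (J : Type) [Fintype J] :
    Fintype (CodeJ d J) :=
  open Classical in inferInstance

/-- The first sum. -/
noncomputable def indA [Fintype V1] (m : ℕ) : ℝ :=
  @fsum (CodeJ d J × CodeJ d J) (codeFin d J) (CondA S ch d p m)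
    fun q => NAH S H ch d p m q.1 q.2

/-- The second sum. -/
noncomputable def indT [Fintype V1] (m : ℕ) : ℝ :=
  @fsum (CodeJ d J) (codeFin1 d J) (CondT S ch d p m) fun a => NTH S H ch d p m a

end parts

/-- The recursion in terms of the two sums. -/
theorem recur_ind [Fintype V1] {S : Sys G V V1 Pl} {H : HData V M Pl} {ch : k[X] → G → ZMod 2}
    {d : TwData k V1} {J : Type} [Fintype J] {p : J → k[X]} (hf : HFacts S H ch d p) {i : ℕ}
    (hi : 1 ≤ i) : (nH S H (chiJ ch p) (i + 1) : ℝ) ≤ Nat.card V1 * nH S H (chiJ ch p) i +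
      1 / 2 * indA S H ch d p i + 1 / 2 * indT S H ch d p i := by
  classical
  refine (hf.recur i hi).trans (le_of_eq ?_)
  congr 1
  · congr 2
    have h1 := Fintype.sum_prod_type (fun q : CodeJ d J × CodeJ d J =>
      if CondA S ch d p i q then NAH S H ch d p i q.1 q.2 else 0)
    refine Eq.trans ?_ (Eq.trans h1.symm ?_)
    · refine Finset.sum_congr rfl fun a _ => Finset.sum_congr rfl fun b _ => ?_
      by_cases hc : CondA S ch d p i (a, b)
      · rw [if_pos hc]
        exact if_pos hc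
      · rw [if_neg hc]
        exact if_neg hc
    · unfold indA fsum
      refine Finset.sum_congr rfl fun q _ => ?_
      by_cases hc : CondA S ch d p i q
      · rw [if_pos hc]
      · rw [if_neg hc]
  · congr 1
    unfold indT fsum
    refine Finset.sum_congr rfl fun a _ => ?_
    by_cases ha : a ∈ LH S ch d p (i + 1) ∧ (∀ v, a ≠ kapJ d J v)
    · rw [if_pos ha]
      by_cases hw : ∃ w : CodeJ d J, ∀ l, condJ d p w l = (p l).natDegree • a.2.2 l
      · rw [if_pos ⟨ha, hw⟩]
      · rw [if_neg fun hh => hw hh.2, hf.zero i hi a ha.1 hw]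
    · rw [if_neg ha, if_neg fun hh => ha hh.1]

section level

variable [Finite k] {S : Sys G V V1 Pl} {H : HData V M Pl} {ch : k[X] → G → ZMod 2}
  {d : TwData k V1} {pl : k[X] → Pl}

/-- The index set of the vector of a point is not empty. -/
theorem nonempty_JG {n : ℕ} (hn : 1 ≤ n) {g : k[X] × Finset ℕ}
    (hN : ∀ P ∈ badP d, P.natDegree < N0 n) (hg : SmK.IsGrid (badP d) (N0 n) n g)
    (x : SmK.Pts k g.2) : Nonempty (JG g) := by
  by_contra hne
  rw [not_nonempty_iff] at hne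
  have h3 := prod_vecG hg x
  rw [Finset.prod_of_isEmpty] at h3
  have h4 := (SmK.mem_DD.1 (SmK.ev_mem (badP_irr d) hN hg x).1).2.1
  rw [← h3, natDegree_one] at h4
  omega

/-- The classes of the points of a grid. -/
@[reducible] def setoidG {j jp : ℕ} (hE : EqvH S H ch d j jp) {g : k[X] × Finset ℕ}
    (hJ : Nonempty (JG g)) (hpv : ∀ x : SmK.Pts k g.2, PVec d (vecG g x)) :
    Setoid (SmK.Pts k g.2) where
  r x x' := TypEqH S H ch d j jp (vecG g x) (vecG g x')
  iseqv := ⟨fun x => hE.refl _ _ hJ _ (hpv x), fun {x x'} => hE.symm _ _ hJ _ _ (hpv x) (hpv x'),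
    fun {x x' x''} => hE.trans _ _ hJ _ _ _ (hpv x) (hpv x') (hpv x'')⟩

theorem level_A [Fintype V1] [Nontrivial V1] [∀ n, Fintype (Irr k n)] (h : S.Ok)
    (hc : ChOk S ch d pl) (m : ℕ) (hm : 1 ≤ m) (hG : GridThmA S H ch d m)
    (hE : EqvH S H ch d m (m - 1)) (hF : FewTyp S H ch d m (m - 1))
    (R kk : ℕ) (hmk : m ≤ kk) (δ : ℝ) (hδ : 0 < δ) :
    ∃ n₀ : ℕ, ∀ n ≥ n₀, ∀ g : k[X] × Finset ℕ, (∀ P ∈ badP d, P.natDegree < N0 n) →
    SmK.IsGrid (badP d) (N0 n) n g →
    ((Nat.card (PD g.1) + g.2.card : ℕ) : ℝ) ≤ 2 * Real.log n →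
    |fsum (fun x : SmK.Pts k g.2 =>
        ∃ x', patG d g x' = patG d g x ∧ TypHV d (vecG g x') R kk (N0 n))
      (fun x => indA S H ch d (vecG g x) m)| ≤
        δ * ∏ t : g.2, (Fintype.card (Irr k (t : ℕ)) : ℝ) := by
  classical
  have h2 := hc.two
  have hkk : 1 ≤ kk := hm.trans hmk
  obtain ⟨C1, hC1⟩ := hF R
  set B : ℝ := (C1 * (2 ^ R * 2 ^ R) : ℕ) * 2 ^ (1 + (m + 2).choose 2) + 1 with hB
  have hB0 : 0 < B := by positivity
  obtain ⟨n1, hn1⟩ := dir_sumA S H ch d m hG R (δ / B) (by positivity)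
  obtain ⟨n2, hn2⟩ := nu_grid h2 d
  refine ⟨max (max n1 n2) 1, fun n hn g hN hg hfew => ?_⟩
  have hds := hn1 n (le_trans (le_trans (le_max_left _ _) (le_max_left _ _)) hn) g hN hg hfew
  have hnu := hn2 n (le_trans (le_trans (le_max_right _ _) (le_max_left _ _)) hn) g hg hfew
  have hn1' : 1 ≤ n := le_trans (le_max_right _ _) hn
  have hpv : ∀ x : SmK.Pts k g.2, PVec d (vecG g x) := fun x => pvec_vecG hN hg x
  have hsym : ∀ x x' : SmK.Pts k g.2, patG d g x = patG d g x' →
      SymEq d (vecG g x) (vecG g x') := fun x x' h => (symEq_iff h2 hN hg x x').2 h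
  by_cases hJ : Nonempty (JG g)
  · have hco : ∀ x, CodeOk S ch d (vecG g x) := fun x => Code.codeOk h hc (hpv x)
    have hsub : ∀ x, FJ S ch d (vecG g x) ⊆ SelpJ d (vecG g x) := fun x =>
      Code.FJ_sub_SelpJ h hc (hpv x)
    let _ : Fintype (CodeJ d (JG g) × CodeJ d (JG g)) := codeFin d (JG g)
    have hT : ∀ x : SmK.Pts k g.2, (∃ x', patG d g x' = patG d g x ∧
        TypHV d (vecG g x') R kk (N0 n)) → TypHV d (vecG g x) R kk (N0 n) := by
      rintro x ⟨x', h1, h3⟩
      exact h3.of_symEq h2 (hpv x') (hpv x) (hsym x' x h1)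
    have hrS : ∀ x x' : SmK.Pts k g.2, TypEqH S H ch d m (m - 1) (vecG g x) (vecG g x') →
        SelpJ d (vecG g x) = SelpJ d (vecG g x') := fun x x' hx =>
      selpJ_symEq h2 (hpv x) (hpv x') hx.1
    have hlh : ∀ x x' : SmK.Pts k g.2, TypEqH S H ch d m (m - 1) (vecG g x) (vecG g x') →
        ∀ i, 1 ≤ i → i ≤ m → LH S ch d (vecG g x) i = LH S ch d (vecG g x') i :=
      fun x x' hx i h1 h3 => Set.Subset.antisymm
        (lh_sub_of_typ h (hco x) (hco x') hx h1 h3)
        (lh_sub_of_typ h (hco x') (hco x) (hE.symm _ _ hJ _ _ (hpv x) (hpv x') hx) h1 h3)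
    have key := level_gen d g hnu (setoidG hE hJ hpv)
      (fun x x' hx => (symEq_iff h2 hN hg x x').1 hx.1)
      (fun x q => CondA S ch d (vecG g x) m q) ?_
      (fun q x => NAH S H ch d (vecG g x) m q.1 q.2)
      (fun s => ∃ x', patG d g x' = s ∧ TypHV d (vecG g x') R kk (N0 n)) m (δ / B)
      (by positivity) C1 (2 ^ R * 2 ^ R) ?_ ?_ ?_
    · refine le_trans key ?_
      have h3 : (0 : ℝ) ≤ ∏ t : g.2, (Fintype.card (Irr k (t : ℕ)) : ℝ) :=
        Finset.prod_nonneg fun _ _ => Nat.cast_nonneg _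
      refine mul_le_mul_of_nonneg_right ?_ h3
      have h4 : ((C1 * (2 ^ R * 2 ^ R) : ℕ) : ℝ) * (δ / B) * 2 ^ (1 + (m + 2).choose 2) =
          δ * (((C1 * (2 ^ R * 2 ^ R) : ℕ) : ℝ) * 2 ^ (1 + (m + 2).choose 2) / B) := by ring
      rw [h4]
      refine mul_le_of_le_one_right hδ.le ?_
      rw [div_le_one hB0, hB]
      linarith
    · -- the condition is constant on the classes
      rintro x x' ⟨a, b⟩ hx ⟨h3, h4, h5⟩
      refine ⟨?_, ?_, h5⟩
      · rw [← hlh x x' hx m hm le_rfl]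
        exact h3
      · rw [← hrS x x' hx]
        exact h4
    · -- few classes
      rintro s ⟨x0, rfl, hx0⟩
      obtain ⟨f, hf⟩ := hC1 (JG g) inferInstance (vecG g x0) (hpv x0) hx0.typ.small
      exact ⟨fun x => f (vecG g x), fun x x' h3 h4 h5 => hf _ _ (hpv x) (hpv x')
        (hsym _ _ h3.symm) (hsym _ _ h4.symm) h5⟩
    · -- few indices
      rintro s ⟨x0, rfl, hx0⟩
      refine ⟨SelpJ d (vecG g x0) ×ˢ SelpJ d (vecG g x0), ?_, ?_⟩
      · rw [Nat.card_congr (Equiv.Set.prod _ _), Nat.card_prod]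
        exact Nat.mul_le_mul hx0.typ.small hx0.typ.small
      · rintro x hx ⟨a, b⟩ ⟨h3, h4, h5⟩
        have h6 : SelpJ d (vecG g x) = SelpJ d (vecG g x0) :=
          selpJ_symEq h2 (hpv x) (hpv x0) (hsym _ _ hx)
        rw [← h6]
        exact ⟨lh_sub_selp h (hco x) (hsub x) hm h3, h4⟩
    · -- directions
      rintro P ⟨a, b⟩ hP ⟨h3, h4, h5⟩
      have ht0 : TypHV d (vecG g P) R kk (N0 n) := hT P hP
      obtain ⟨Bs⟩ := exists_basA h (hco P) (hsub P) hm h3 h4 h5
      obtain ⟨dir, hdir, hsupp⟩ := exists_supp ht0.typ (Set.Subset.refl _) hmk hkk Bs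
      have hinr : ∀ i, ∃ t : g.2, dir i = Sum.inr t := by
        intro i
        rcases h6 : dir i with Q | t
        · exfalso
          have h7 := (hdir i).1
          rw [h6] at h7
          change N0 n ≤ Q.1.natDegree at h7
          have h8 := hg.small Q.1 Q.2
          omega
        · exact ⟨t, rfl⟩
      choose tt htt using hinr
      let tte : Dir m ↪ g.2 := ⟨tt, fun i j hij => dir.injective (by rw [htt, htt, hij])⟩
      have hdireq : dir = tte.trans Function.Embedding.inr := by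
        ext i : 1
        exact htt i
      refine ⟨tte, fun P' hP' => ?_⟩
      have h6 : ∀ i, 4 ∣ (tte i : ℕ) := by
        intro i
        have h7 := (hdir i).2
        rw [htt] at h7
        rw [vecG_deg_inr] at h7
        exact h7
      exact hds a b tte P' h6 (by rw [← hrS P P' hP']; exact ht0.typ.small) (by
        rw [← hdireq, ← hrS P P' hP']
        exact supp_congr (fun i h7 h8 => hlh P P' hP' i h7 h8) hsupp)
        (by rw [← hlh P P' hP' m hm le_rfl]; exact h3)
  · -- no points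
    have hem : IsEmpty (SmK.Pts k g.2) := ⟨fun x => hJ (nonempty_JG hn1' hN hg x)⟩
    rw [fsum, Finset.univ_eq_empty, Finset.sum_empty, abs_zero]
    exact mul_nonneg hδ.le (Finset.prod_nonneg fun _ _ => Nat.cast_nonneg _)

omit [Finite k] in
theorem suppT_congr {J : Type} {F : Set (CodeJ d J)} {L L' : ℕ → Set (CodeJ d J)}
    {m : ℕ} {a w : CodeJ d J} {dir : Dir m ↪ J} (h : ∀ i, 1 ≤ i → i ≤ m → L i = L' i)
    (hs : Nonempty (SuppT d F L m a w dir)) : Nonempty (SuppT d F L' m a w dir) := by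
  obtain ⟨s⟩ := hs
  exact ⟨{ s with
    adapted := fun i h1 h2 x hx => by
      have h3 := s.adapted i h1 h2 x (by rw [h i h1 h2]; exact hx)
      rw [h i h1 h2] at h3
      exact h3 }⟩

theorem level_T [Fintype V1] [Nontrivial V1] [∀ n, Fintype (Irr k n)] (h : S.Ok)
    (hc : ChOk S ch d pl) (hfa : ∀ (J : Type) (_ : Fintype J) (_ : Nonempty J) (p : J → k[X]),
      PVec d p → HFacts S H ch d p) (m : ℕ) (hm : 1 ≤ m) (hG : GridThmT S H ch d m)
    (hE : EqvH S H ch d m m) (hF : FewTyp S H ch d m m)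
    (R kk : ℕ) (hmk : m ≤ kk) (δ : ℝ) (hδ : 0 < δ) :
    ∃ n₀ : ℕ, ∀ n ≥ n₀, ∀ g : k[X] × Finset ℕ, (∀ P ∈ badP d, P.natDegree < N0 n) →
    SmK.IsGrid (badP d) (N0 n) n g →
    ((Nat.card (PD g.1) + g.2.card : ℕ) : ℝ) ≤ 2 * Real.log n →
    |fsum (fun x : SmK.Pts k g.2 =>
        ∃ x', patG d g x' = patG d g x ∧ TypHV d (vecG g x') R kk (N0 n))
      (fun x => indT S H ch d (vecG g x) m)| ≤
        δ * ∏ t : g.2, (Fintype.card (Irr k (t : ℕ)) : ℝ) := by
  classical
  have h2 := hc.two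
  have hkk : 1 ≤ kk := hm.trans hmk
  obtain ⟨C1, hC1⟩ := hF R
  set B : ℝ := (C1 * 2 ^ R : ℕ) * 2 ^ (1 + (m + 2).choose 2) + 1 with hB
  have hB0 : 0 < B := by positivity
  obtain ⟨n1, hn1⟩ := dir_sumT S H ch d m hG R (δ / B) (by positivity)
  obtain ⟨n2, hn2⟩ := nu_grid h2 d
  refine ⟨max (max n1 n2) 1, fun n hn g hN hg hfew => ?_⟩
  have hds := hn1 n (le_trans (le_trans (le_max_left _ _) (le_max_left _ _)) hn) g hN hg hfew
  have hnu := hn2 n (le_trans (le_trans (le_max_right _ _) (le_max_left _ _)) hn) g hg hfew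
  have hn1' : 1 ≤ n := le_trans (le_max_right _ _) hn
  have hpv : ∀ x : SmK.Pts k g.2, PVec d (vecG g x) := fun x => pvec_vecG hN hg x
  have hsym : ∀ x x' : SmK.Pts k g.2, patG d g x = patG d g x' →
      SymEq d (vecG g x) (vecG g x') := fun x x' h => (symEq_iff h2 hN hg x x').2 h
  by_cases hJ : Nonempty (JG g)
  · have hco : ∀ x, CodeOk S ch d (vecG g x) := fun x => Code.codeOk h hc (hpv x)
    have hsub : ∀ x, FJ S ch d (vecG g x) ⊆ SelpJ d (vecG g x) := fun x =>
      Code.FJ_sub_SelpJ h hc (hpv x)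
    have hfx : ∀ x, HFacts S H ch d (vecG g x) := fun x => hfa _ _ hJ _ (hpv x)
    let _ : Fintype (CodeJ d (JG g)) := codeFin1 d (JG g)
    have hT : ∀ x : SmK.Pts k g.2, (∃ x', patG d g x' = patG d g x ∧
        TypHV d (vecG g x') R kk (N0 n)) → TypHV d (vecG g x) R kk (N0 n) := by
      rintro x ⟨x', h1, h3⟩
      exact h3.of_symEq h2 (hpv x') (hpv x) (hsym x' x h1)
    have hrS : ∀ x x' : SmK.Pts k g.2, TypEqH S H ch d m m (vecG g x) (vecG g x') →
        SelpJ d (vecG g x) = SelpJ d (vecG g x') := fun x x' hx =>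
      selpJ_symEq h2 (hpv x) (hpv x') hx.1
    have hlh : ∀ x x' : SmK.Pts k g.2, TypEqH S H ch d m m (vecG g x) (vecG g x') →
        ∀ i, 1 ≤ i → i ≤ m → LH S ch d (vecG g x) i = LH S ch d (vecG g x') i :=
      fun x x' hx i h1 h3 => Set.Subset.antisymm
        (lh_sub_of_typ h (hco x) (hco x') hx h1 h3)
        (lh_sub_of_typ h (hco x') (hco x) (hE.symm _ _ hJ _ _ (hpv x) (hpv x') hx) h1 h3)
    have hlh' : ∀ x x' : SmK.Pts k g.2, TypEqH S H ch d m m (vecG g x) (vecG g x') →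
        LH S ch d (vecG g x) (m + 1) = LH S ch d (vecG g x') (m + 1) :=
      fun x x' hx => Set.Subset.antisymm
        (lh_succ_sub_of_typ (hfx x) (hfx x') (hrS x x' hx) hm hx)
        (lh_succ_sub_of_typ (hfx x') (hfx x) (hrS x x' hx).symm hm
          (hE.symm _ _ hJ _ _ (hpv x) (hpv x') hx))
    have hw' : ∀ x x' : SmK.Pts k g.2, TypEqH S H ch d m m (vecG g x) (vecG g x') →
        ∀ a w : CodeJ d (JG g), (∀ l, condJ d (vecG g x) w l =
          (vecG g x l).natDegree • a.2.2 l) → ∀ l, condJ d (vecG g x') w l =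
          (vecG g x' l).natDegree • a.2.2 l := by
      intro x x' hx a w hw l
      rw [← condJ_symEq h2 (hpv x) (hpv x') hx.1, hw l, hx.1.deg l]
    have key := level_gen d g hnu (setoidG hE hJ hpv)
      (fun x x' hx => (symEq_iff h2 hN hg x x').1 hx.1)
      (fun x q => CondT S ch d (vecG g x) m q) ?_
      (fun a x => NTH S H ch d (vecG g x) m a)
      (fun s => ∃ x', patG d g x' = s ∧ TypHV d (vecG g x') R kk (N0 n)) m (δ / B)
      (by positivity) C1 (2 ^ R) ?_ ?_ ?_
    · refine le_trans key ?_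
      have h3 : (0 : ℝ) ≤ ∏ t : g.2, (Fintype.card (Irr k (t : ℕ)) : ℝ) :=
        Finset.prod_nonneg fun _ _ => Nat.cast_nonneg _
      refine mul_le_mul_of_nonneg_right ?_ h3
      have h4 : ((C1 * 2 ^ R : ℕ) : ℝ) * (δ / B) * 2 ^ (1 + (m + 2).choose 2) =
          δ * (((C1 * 2 ^ R : ℕ) : ℝ) * 2 ^ (1 + (m + 2).choose 2) / B) := by ring
      rw [h4]
      refine mul_le_of_le_one_right hδ.le ?_
      rw [div_le_one hB0, hB]
      linarith
    · -- the condition is constant on the classes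
      rintro x x' a hx ⟨⟨h3, h4⟩, w, hw⟩
      refine ⟨⟨?_, h4⟩, w, hw' x x' hx a w hw⟩
      rw [← hlh' x x' hx]
      exact h3
    · -- few classes
      rintro s ⟨x0, rfl, hx0⟩
      obtain ⟨f, hf⟩ := hC1 (JG g) inferInstance (vecG g x0) (hpv x0) hx0.typ.small
      exact ⟨fun x => f (vecG g x), fun x x' h3 h4 h5 => hf _ _ (hpv x) (hpv x')
        (hsym _ _ h3.symm) (hsym _ _ h4.symm) h5⟩
    · -- few indices
      rintro s ⟨x0, rfl, hx0⟩
      refine ⟨SelpJ d (vecG g x0), hx0.typ.small, ?_⟩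
      rintro x hx a ⟨⟨h3, h4⟩, -⟩
      have h6 : SelpJ d (vecG g x) = SelpJ d (vecG g x0) :=
        selpJ_symEq h2 (hpv x) (hpv x0) (hsym _ _ hx)
      rw [← h6]
      exact lh_sub_selp h (hco x) (hsub x) (Nat.le_add_left 1 m) h3
    · -- directions
      rintro P a hP ⟨⟨h3, h4⟩, w, hw⟩
      have ht0 : TypHV d (vecG g P) R kk (N0 n) := hT P hP
      have h3' : a ∈ LH S ch d (vecG g P) m :=
        Lfl_anti h (hco P) hm (Nat.le_succ m) h3
      obtain ⟨Bs⟩ := exists_basT h (hco P) (hsub P) hm h3' h4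
      obtain ⟨dir, hdir, hsupp⟩ := exists_suppT ht0 hmk hkk hw Bs
      have hinr : ∀ i, ∃ t : g.2, dir i = Sum.inr t := by
        intro i
        rcases h6 : dir i with Q | t
        · exfalso
          have h7 := (hdir i).1
          rw [h6] at h7
          change N0 n ≤ Q.1.natDegree at h7
          have h8 := hg.small Q.1 Q.2
          omega
        · exact ⟨t, rfl⟩
      choose tt htt using hinr
      let tte : Dir m ↪ g.2 := ⟨tt, fun i j hij => dir.injective (by rw [htt, htt, hij])⟩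
      have hdireq : dir = tte.trans Function.Embedding.inr := by
        ext i : 1
        exact htt i
      refine ⟨tte, fun P' hP' => ?_⟩
      have h6 : ∀ i, 4 ∣ (tte i : ℕ) := by
        intro i
        have h7 := (hdir i).2
        rw [htt] at h7
        rw [vecG_deg_inr] at h7
        exact h7
      exact hds a w tte P' h6 (by rw [← hrS P P' hP']; exact ht0.typ.small)
        (hw' P P' hP' a w hw) (by
        rw [← hdireq, ← hrS P P' hP']
        exact suppT_congr (fun i h7 h8 => hlh P P' hP' i h7 h8) hsupp)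
        (by rw [← hlh' P P' hP']; exact h3)
  · -- no points
    have hem : IsEmpty (SmK.Pts k g.2) := ⟨fun x => hJ (nonempty_JG hn1' hN hg x)⟩
    rw [fsum, Finset.univ_eq_empty, Finset.sum_empty, abs_zero]
    exact mul_nonneg hδ.le (Finset.prod_nonneg fun _ _ => Nat.cast_nonneg _)

end level

end Pool.Agent.SmH
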