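import Pool.Agent.Lib.SmH.G.Recur
import Pool.Agent.Lib.SmH.G.ExW
import Pool.Agent.Lib.SmJ.G.TowerJ
import Pool.Agent.Lib.SmJ.I.Code

/-!
# HEIGHTS, module HFactsOf: the facts on one vector of primes

`hfacts_of`: finiteness, the criterion for the flag, the recursion for the number of the elements of
height zero and the vanishing of `NTH` if there is no code `w`.
-/

set_option autoImplicit false

open Polynomial

namespace Pool.Agent.SmH

open Pool.Agent.SmJ Pool.Agent.SmJ.Sys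

namespace HFOf

variable {k : Type} [Field k] {G V V1 Pl M : Type} [Group G] [AddCommGroup V]
  [DistribMulAction G V] [AddCommGroup V1] [Module (ZMod 2) V1] [AddCommGroup M]
  [DistribMulAction G M] {S : Sys G V V1 Pl} {H : HData V M Pl} {ch : k[X] → G → ZMod 2}
  {d : TwData k V1} {pl : k[X] → Pl} {J : Type} [Fintype J] {p : J → k[X]} {i : ℕ}
  {a b : CodeJ d J} {y : (G → V) × (Pl → V)}

theorem finite_rel (h : S.Ok) (hc : ChOk S ch d pl) (hp : PVec d p) :
    Finite {b : G → V1 // IsRel S (chiJ ch p) b} := by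
  have := h.fin1
  refine Finite.of_surjective (fun c : {c : CodeJ d J // c ∈ SelpJ d p} =>
    (⟨homJ ch d p c.1, (ExW.isRel_homJ_iff h hc hp c.1).2 c.2⟩ :
      {b : G → V1 // IsRel S (chiJ ch p) b})) ?_
  rintro ⟨b, hb⟩
  obtain ⟨c, hcs, rfl⟩ := ExW.isRel_surj h hc hp hb
  exact ⟨⟨c, hcs⟩, rfl⟩

open Classical in
/-- A sum over the relaxed Selmer group in codes. -/
theorem sum_rel [Fintype V1] {R : Type*} [AddCommMonoid R] (h : S.Ok) (hc : ChOk S ch d pl)
    (hp : PVec d p) (f : (G → V1) → R) :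
    ∑ᶠ b : {b : G → V1 // IsRel S (chiJ ch p) b}, f b.1 =
      ∑ b : CodeJ d J, if b ∈ SelpJ d p then f (homJ ch d p b) else 0 := by
  let e : {c : CodeJ d J // c ∈ SelpJ d p} ≃ {b : G → V1 // IsRel S (chiJ ch p) b} :=
    Equiv.ofBijective (fun c => ⟨homJ ch d p c.1, (ExW.isRel_homJ_iff h hc hp c.1).2 c.2⟩)
      ⟨fun c c' hcc => Subtype.ext (Code.homJ_inj hc hp (congrArg Subtype.val hcc)), by
        rintro ⟨b, hb⟩
        obtain ⟨c, hcs, rfl⟩ := ExW.isRel_surj h hc hp hb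
        exact ⟨⟨c, hcs⟩, rfl⟩⟩
  rw [← finsum_comp_equiv e (f := fun b => f b.1)]
  exact Rec.fsub Finset.univ (fun x _ => Finset.mem_univ x) (fun c => f (homJ ch d p c))

/-- The code of the top of a rigid Selmer element. -/
theorem exists_top (h : S.Ok) (hco : CodeOk S ch d p) (hi : 1 ≤ i)
    (hy : IsPr S (chiJ ch p) i y) : ∃ a, AbvH S ch d p i a y := by
  obtain ⟨j, rfl⟩ := Nat.exists_eq_add_of_le' hi
  have h1 := isSel_top j hy.sel
  obtain ⟨a, ha⟩ := hco.surj _ (isSel_un h h1)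
  refine ⟨a, hy, fun s => ?_⟩
  rw [ha, Nat.add_sub_cancel]
  refine (iota_un h ?_).symm
  have h2 := h1.lev s
  rwa [pow_one] at h2

theorem top_unique (h : S.Ok) (hco : CodeOk S ch d p) {a a' : CodeJ d J}
    (ha : AbvH S ch d p i a y) (ha' : AbvH S ch d p i a' y) : a = a' :=
  hco.inj (funext fun s => h.iota_inj ((ha.2 s).symm.trans (ha'.2 s)))

theorem mem_LH_of (h : S.Ok) (hco : CodeOk S ch d p) (hi : 1 ≤ i)
    (ha : AbvH S ch d p i a y) : a ∈ LH S ch d p i :=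
  (mem_Lfl_iff h hco hi a).2 ⟨y.1, ha.1.sel, ha.2⟩

theorem topK_iff (h : S.Ok) (hco : CodeOk S ch d p) (ha : AbvH S ch d p i a y) :
    Rec.TopK (chiJ ch p) i y ↔ ∃ w, a = kapJ d J w := by
  constructor
  · rintro ⟨z, hz, hz'⟩
    obtain ⟨w, hw⟩ := h.iota_range ((2 : ℕ) • z) (by rw [smul_smul, ← hz]; rfl)
    refine ⟨w, hco.inj (funext fun s => h.iota_inj ?_)⟩
    rw [hco.kap w z hw.symm s, ← ha.2 s, hz' s]
  · rintro ⟨w, rfl⟩
    obtain ⟨z, hz⟩ := h.half (S.iota w)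
    refine ⟨z, ?_, fun s => ?_⟩
    · rw [pow_two, mul_smul, hz, two_iota]
    · rw [ha.2 s, hco.kap w z hz s]

/-- Every Selmer cocycle of level `i` is the first component of a rigid element. -/
theorem exists_rigid {chi : G → ZMod 2} {Psi : G → V} (hP : S.IsSel chi i Psi) :
    ∃ Q : Pl → V, IsPr S chi i ((Psi, Q) : (G → V) × (Pl → V)) := by
  classical
  choose Q hQ using hP.loc
  refine ⟨fun v => if v ∈ S.good then 0 else Q v, hP, fun v hv s hs => ?_, fun v hv => ?_⟩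
  · change Psi s = dl chi (if v ∈ S.good then 0 else Q v) s
    rw [if_neg hv]
    exact hQ v s hs
  · exact if_pos hv

theorem v1_two (w : V1) : w + w = 0 := by
  rw [← two_smul (ZMod 2), show (2 : ZMod 2) = 0 from rfl, zero_smul]

omit [Fintype J] in
/-- There are few codes which are dependent on a given code. -/
theorem card_dep [Fintype V1] (ha : ∀ w, a ≠ kapJ d J w) :
    Nat.card {b : CodeJ d J // ¬ Indep2 d a b} ≤ 2 * Nat.card V1 := by
  have hab : ∀ b : CodeJ d J, ¬ Indep2 d a b → (∃ w, b = kapJ d J w) ∨ ∃ w, b = a + kapJ d J w := by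
    intro b hb
    rw [Indep2] at hb
    push Not at hb
    obtain ⟨x, y, w, hw, hxy⟩ := hb
    have hz : ∀ x : ZMod 2, x = 0 ∨ x = 1 := by decide
    rcases hz x with rfl | rfl <;> rcases hz y with rfl | rfl
    · exact absurd rfl (hxy rfl)
    · rw [one_smul, zero_smul, zero_add] at hw
      exact Or.inl ⟨w, hw⟩
    · rw [one_smul, zero_smul, add_zero] at hw
      exact absurd hw (ha w)
    · rw [one_smul, one_smul] at hw
      refine Or.inr ⟨w, ?_⟩
      have e : a + a = 0 :=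
        Prod.ext (v1_two _) (Prod.ext (funext fun _ => v1_two _) (funext fun _ => v1_two _))
      rw [← hw, ← add_assoc, e, zero_add]
  have h1 : Nat.card (V1 ⊕ V1) = 2 * Nat.card V1 := by
    rw [Nat.card_sum, two_mul]
  rw [← h1]
  have hinj : ∃ f : {b : CodeJ d J // ¬ Indep2 d a b} → V1 ⊕ V1, Function.Injective f := by
    have hch : ∀ b : {b : CodeJ d J // ¬ Indep2 d a b}, ∃ x : V1 ⊕ V1,
        b.1 = Sum.elim (fun w => kapJ d J w) (fun w => a + kapJ d J w) x := by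
      rintro ⟨b, hb⟩
      rcases hab b hb with ⟨w, hw⟩ | ⟨w, hw⟩
      · exact ⟨Sum.inl w, hw⟩
      · exact ⟨Sum.inr w, hw⟩
    choose f hf using hch
    exact ⟨f, fun b b' e => Subtype.ext (by rw [hf b, hf b', e])⟩
  obtain ⟨f, hf⟩ := hinj
  exact Nat.card_le_card_of_injective f hf

theorem sgn_cast (x : ZMod 2) : ((sgn x : ℤ) : ℝ) = (-1 : ℝ) ^ x.val := by
  rcases (by decide : ∀ x : ZMod 2, x = 0 ∨ x = 1) x with rfl | rfl
  · simp [sgn]
  · have : (1 : ZMod 2).val = 1 := rfl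
    rw [this, pow_one, sgn, if_neg one_ne_zero]
    norm_num

theorem sgn_abs (x : ZMod 2) : (-1 : ℝ) ^ x.val ≤ 1 := by
  rcases (by decide : ∀ x : ZMod 2, x = 0 ∨ x = 1) x with rfl | rfl
  · simp
  · have : (1 : ZMod 2).val = 1 := rfl
    rw [this, pow_one]
    norm_num

open Classical in
/-- The part of the recursion with the rigid Cassels-Tate pairing. -/
theorem part_A [Fintype V1] (h : S.Ok) (hc : ChOk S ch d pl) (hp : PVec d p)
    (hco : CodeOk S ch d p) (hi : 1 ≤ i) :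
    ((∑ᶠ y : {y : (G → V) × (Pl → V) // IsZ S H (chiJ ch p) i y},
      ∑ᶠ b : {b : G → V1 // IsRel S (chiJ ch p) b}, sgn (CTr S (chiJ ch p) y.1 b.1) : ℤ) : ℝ) ≤
      2 * Nat.card V1 * nH S H (chiJ ch p) i +
      ∑ a : CodeJ d J, ∑ b : CodeJ d J,
        if a ∈ LH S ch d p i ∧ b ∈ SelpJ d p ∧ Indep2 d a b then NAH S H ch d p i a b else 0 := by
  have hchi := hco.chi
  have hfin : {y : (G → V) × (Pl → V) | IsPr S (chiJ ch p) i y}.Finite :=
    finite_isPr h hchi (finite_rel h hc hp) i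
  set F := hfin.toFinset with hF
  have memF : ∀ y, y ∈ F ↔ IsPr S (chiJ ch p) i y := fun y => by
    rw [hF, Set.Finite.mem_toFinset]; rfl
  -- the sign
  let sg : (G → V) × (Pl → V) → CodeJ d J → ℝ := fun y b =>
    (-1 : ℝ) ^ (CTr S (chiJ ch p) y (homJ ch d p b)).val
  have h1 : ((∑ᶠ y : {y : (G → V) × (Pl → V) // IsZ S H (chiJ ch p) i y},
      ∑ᶠ b : {b : G → V1 // IsRel S (chiJ ch p) b}, sgn (CTr S (chiJ ch p) y.1 b.1) : ℤ) : ℝ) =
      ∑ y ∈ F, if IsZ S H (chiJ ch p) i y then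
        ∑ b : CodeJ d J, (if b ∈ SelpJ d p then sg y b else 0) else 0 := by
    rw [Rec.fsub F (fun y hy => (memF y).2 hy.pr) (fun y =>
      ∑ᶠ b : {b : G → V1 // IsRel S (chiJ ch p) b}, sgn (CTr S (chiJ ch p) y b.1)), Int.cast_sum]
    refine Finset.sum_congr rfl fun y _ => ?_
    rw [sum_rel h hc hp (fun b => sgn (CTr S (chiJ ch p) y b))]
    push_cast
    refine if_congr Iff.rfl (Finset.sum_congr rfl fun b _ => ?_) rfl
    rw [sgn_cast]
  have h2 : ∑ a : CodeJ d J, ∑ b : CodeJ d J,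
        (if a ∈ LH S ch d p i ∧ b ∈ SelpJ d p ∧ Indep2 d a b then NAH S H ch d p i a b else 0) =
      ∑ y ∈ F, ∑ b : CodeJ d J, ∑ a : CodeJ d J,
        (if a ∈ LH S ch d p i ∧ b ∈ SelpJ d p ∧ Indep2 d a b then
          (if AbvH S ch d p i a y ∧ q S H (chiJ ch p) i y = 0 then sg y b else 0) else 0) := by
    rw [Finset.sum_comm]
    rw [Finset.sum_comm (s := F)]
    refine Finset.sum_congr rfl fun b _ => ?_
    rw [Finset.sum_comm (s := F)]
    refine Finset.sum_congr rfl fun a _ => ?_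
    by_cases hC : a ∈ LH S ch d p i ∧ b ∈ SelpJ d p ∧ Indep2 d a b
    · rw [if_pos hC, NAH, Rec.fsub F (fun y hy => (memF y).2 hy.1.1) (fun y => sg y b)]
      exact Finset.sum_congr rfl fun y _ => (if_pos hC).symm
    · rw [if_neg hC]
      exact (Finset.sum_eq_zero fun y _ => if_neg hC).symm
  have h3 : (2 * Nat.card V1 * nH S H (chiJ ch p) i : ℝ) =
      ∑ y ∈ F, if IsZ S H (chiJ ch p) i y then (2 * Nat.card V1 : ℝ) else 0 := by
    rw [nH, Rec.csub F (fun y hy => (memF y).2 hy.pr), ← Finset.sum_filter, Finset.sum_const,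
      nsmul_eq_mul, mul_comm]
  rw [h1, h2, h3, ← Finset.sum_add_distrib]
  refine Finset.sum_le_sum fun y hy => ?_
  have hpr := (memF y).1 hy
  obtain ⟨a0, ha0⟩ := exists_top h hco hi hpr
  have hL := mem_LH_of h hco hi ha0
  -- the sum over a
  have h4 : ∀ b : CodeJ d J, (∑ a : CodeJ d J,
      (if a ∈ LH S ch d p i ∧ b ∈ SelpJ d p ∧ Indep2 d a b then
        (if AbvH S ch d p i a y ∧ q S H (chiJ ch p) i y = 0 then sg y b else 0) else 0)) =
      if b ∈ SelpJ d p ∧ Indep2 d a0 b ∧ q S H (chiJ ch p) i y = 0 then sg y b else 0 := by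
    intro b
    rw [Finset.sum_eq_single a0]
    · by_cases hC : b ∈ SelpJ d p ∧ Indep2 d a0 b
      · by_cases hq : q S H (chiJ ch p) i y = 0
        · rw [if_pos ⟨hL, hC.1, hC.2⟩, if_pos ⟨ha0, hq⟩, if_pos ⟨hC.1, hC.2, hq⟩]
        · rw [if_pos ⟨hL, hC.1, hC.2⟩, if_neg fun h5 => hq h5.2, if_neg fun h5 => hq h5.2.2]
      · rw [if_neg fun h5 => hC h5.2, if_neg fun h5 => hC ⟨h5.1, h5.2.1⟩]
    · intro a _ hne
      have h5 : ¬ (AbvH S ch d p i a y ∧ q S H (chiJ ch p) i y = 0) := fun h6 =>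
        hne (top_unique h hco h6.1 ha0)
      rw [if_neg h5, ite_self]
    · exact fun h5 => absurd (Finset.mem_univ a0) h5
  rw [Finset.sum_congr rfl fun b _ => h4 b]
  by_cases hZ : IsZ S H (chiJ ch p) i y
  · rw [if_pos hZ, if_pos hZ]
    have hk : ∀ w, a0 ≠ kapJ d J w := fun w hw =>
      ((Rec.isZ_iff y).1 hZ).2.1 ((topK_iff h hco ha0).2 ⟨w, hw⟩)
    have h5 : (Nat.card {b : CodeJ d J // ¬ Indep2 d a0 b} : ℝ) =
        ∑ b : CodeJ d J, if ¬ Indep2 d a0 b then (1 : ℝ) else 0 := by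
      rw [Rec.csub Finset.univ fun x _ => Finset.mem_univ x, Finset.card_filter]
      push_cast
      rfl
    have h6 : (Nat.card {b : CodeJ d J // ¬ Indep2 d a0 b} : ℝ) ≤ 2 * Nat.card V1 := by
      exact_mod_cast card_dep hk
    refine le_trans ?_ (add_le_add_left h6 _)
    rw [h5, ← Finset.sum_add_distrib]
    refine Finset.sum_le_sum fun b _ => ?_
    by_cases hb : b ∈ SelpJ d p
    · by_cases hI : Indep2 d a0 b
      · rw [if_pos hb, if_neg (not_not.2 hI), if_pos ⟨hb, hI, hZ.q0⟩, zero_add]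
      · rw [if_pos hb, if_pos hI, if_neg fun h7 => hI h7.2.1, add_zero]
        exact sgn_abs _
    · have e1 : ¬ (b ∈ SelpJ d p ∧ Indep2 d a0 b ∧ q S H (chiJ ch p) i y = 0) :=
        fun h7 => hb h7.1
      rw [if_neg hb, if_neg e1, add_zero]
      split_ifs <;> norm_num
  · rw [if_neg hZ, if_neg hZ, zero_add]
    refine Finset.sum_nonneg fun b _ => ?_
    rw [if_neg]
    rintro ⟨_, hI, hq⟩
    apply hZ
    rw [Rec.isZ_iff]
    refine ⟨hpr, fun hT => ?_, hq⟩
    obtain ⟨w, hw⟩ := (topK_iff h hco ha0).1 hT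
    have := (hI 1 0 w (by rw [one_smul, zero_smul, add_zero, hw])).1
    exact one_ne_zero this

open Classical in
/-- The part of the recursion with the signs of the height. -/
theorem part_T [Fintype V1] (h : S.Ok) (hc : ChOk S ch d pl) (hp : PVec d p)
    (hco : CodeOk S ch d p) (hi : 1 ≤ i) :
    ((∑ᶠ y : {y : (G → V) × (Pl → V) // IsPr S (chiJ ch p) (i + 1) y ∧
          ¬ Rec.TopK (chiJ ch p) (i + 1) y ∧ q S H (chiJ ch p) i ((2 : ℕ) • y) = 0},
        (if q S H (chiJ ch p) (i + 1) y.1 = 0 then (1 : ℤ) else -1) : ℤ) : ℝ) =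
      ∑ a : CodeJ d J,
        if a ∈ LH S ch d p (i + 1) ∧ (∀ v, a ≠ kapJ d J v) then NTH S H ch d p i a else 0 := by
  have hchi := hco.chi
  have hfin : {y : (G → V) × (Pl → V) | IsPr S (chiJ ch p) (i + 1) y}.Finite :=
    finite_isPr h hchi (finite_rel h hc hp) (i + 1)
  set F := hfin.toFinset with hF
  have memF : ∀ y, y ∈ F ↔ IsPr S (chiJ ch p) (i + 1) y := fun y => by
    rw [hF, Set.Finite.mem_toFinset]; rfl
  have hi' : 1 ≤ i + 1 := by omega
  have h2 : (∑ a : CodeJ d J,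
        if a ∈ LH S ch d p (i + 1) ∧ (∀ v, a ≠ kapJ d J v) then NTH S H ch d p i a else 0) =
      ∑ y ∈ F, ∑ a : CodeJ d J, if a ∈ LH S ch d p (i + 1) ∧ (∀ v, a ≠ kapJ d J v) then
        (if AbvH S ch d p (i + 1) a y ∧ q S H (chiJ ch p) i ((2 : ℕ) • y) = 0 then
          (if q S H (chiJ ch p) (i + 1) y = 0 then (1 : ℝ) else -1) else 0) else 0 := by
    rw [Finset.sum_comm (s := F)]
    refine Finset.sum_congr rfl fun a _ => ?_
    by_cases hC : a ∈ LH S ch d p (i + 1) ∧ (∀ v, a ≠ kapJ d J v)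
    · rw [if_pos hC, NTH, Rec.fsub F (fun y hy => (memF y).2 hy.1.1)
        (fun y => if q S H (chiJ ch p) (i + 1) y = 0 then (1 : ℝ) else -1)]
      exact Finset.sum_congr rfl fun y _ => (if_pos hC).symm
    · rw [if_neg hC]
      exact (Finset.sum_eq_zero fun y _ => if_neg hC).symm
  rw [h2, Rec.fsub F (fun y hy => (memF y).2 hy.1)
    (fun y => if q S H (chiJ ch p) (i + 1) y = 0 then (1 : ℤ) else -1)]
  push_cast
  refine Finset.sum_congr rfl fun y hy => ?_
  have hpr := (memF y).1 hy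
  obtain ⟨a0, ha0⟩ := exists_top h hco hi' hpr
  have hL := mem_LH_of h hco hi' ha0
  rw [Finset.sum_eq_single a0]
  · have hK : (∀ v, a0 ≠ kapJ d J v) ↔ ¬ Rec.TopK (chiJ ch p) (i + 1) y := by
      rw [topK_iff h hco ha0]
      push Not
      rfl
    have e1 : (IsPr S (chiJ ch p) (i + 1) y ∧ ¬ Rec.TopK (chiJ ch p) (i + 1) y ∧
        q S H (chiJ ch p) i ((2 : ℕ) • y) = 0) ↔ (¬ Rec.TopK (chiJ ch p) (i + 1) y ∧
        q S H (chiJ ch p) i ((2 : ℕ) • y) = 0) := ⟨fun h5 => h5.2, fun h5 => ⟨hpr, h5⟩⟩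
    have e2 : (a0 ∈ LH S ch d p (i + 1) ∧ ∀ v, a0 ≠ kapJ d J v) ↔
        ¬ Rec.TopK (chiJ ch p) (i + 1) y := ⟨fun h5 => hK.1 h5.2, fun h5 => ⟨hL, hK.2 h5⟩⟩
    have e3 : (AbvH S ch d p (i + 1) a0 y ∧ q S H (chiJ ch p) i ((2 : ℕ) • y) = 0) ↔
        q S H (chiJ ch p) i ((2 : ℕ) • y) = 0 := ⟨fun h5 => h5.2, fun h5 => ⟨ha0, h5⟩⟩
    simp only [e1, e2, e3]
    by_cases hT : Rec.TopK (chiJ ch p) (i + 1) y
    · simp only [hT, not_true, false_and, if_false]
    · simp only [hT, not_false_iff, true_and, if_true]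
  · intro a _ hne
    have h5 : ¬ (AbvH S ch d p (i + 1) a y ∧ q S H (chiJ ch p) i ((2 : ℕ) • y) = 0) := fun h6 =>
      hne (top_unique h hco h6.1 ha0)
    rw [if_neg h5, ite_self]
  · exact fun h5 => absurd (Finset.mem_univ a0) h5

end HFOf

open HFOf in
/-- **The facts on one vector of primes.** -/
theorem hfacts_of {k : Type} [Field k] {G V V1 Pl M : Type} [Group G] [AddCommGroup V]
    [DistribMulAction G V] [AddCommGroup V1] [Module (ZMod 2) V1] [AddCommGroup M]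
    [DistribMulAction G M] [Fintype V1] {S : Sys G V V1 Pl} {H : HData V M Pl}
    {ch : k[X] → G → ZMod 2} {d : TwData k V1} {pl : k[X] → Pl} {J : Type} [Fintype J]
    [Nonempty J] {p : J → k[X]} (h : S.Ok) (hH : HOk S H) (hc : ChOk S ch d pl)
    (hd : ∀ P : k[X], P.Monic → Irreducible P → H.deg (pl P) = P.natDegree) (hp : PVec d p) :
    HFacts S H ch d p := by
  classical
  have hco := Code.codeOk h hc hp
  have hchi := hco.chi
  have hf := finite_rel (ch := ch) (p := p) h hc hp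
  refine ⟨fun i => finite_isPr h hchi hf i, fun i hi a => ⟨fun ha => ?_, ?_⟩, fun i hi => ?_,
    fun i hi a ha hno => ?_⟩
  · -- a Selmer cocycle of level i + 1
    obtain ⟨Psi, hPsi, htop⟩ := (mem_Lfl_iff h hco (by omega) a).1 ha
    obtain ⟨Q, hQ⟩ := exists_rigid hPsi
    refine ⟨(2 : ℕ) • (Psi, Q), ⟨hQ.two, fun s => ?_⟩, fun b hb =>
      CTr_two h hchi hQ ((ExW.isRel_homJ_iff h hc hp b).2 hb)⟩
    obtain ⟨j, rfl⟩ := Nat.exists_eq_add_of_le' hi
    have h1 := htop s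
    rw [Nat.add_sub_cancel] at h1
    rw [Nat.add_sub_cancel, ← h1, Prod.smul_fst, Pi.smul_apply, smul_smul, ← pow_succ]
  · rintro ⟨y, hy, hb⟩
    obtain ⟨y', hy', rfl⟩ := (ctr_crit h hchi hy.1).2 fun b hb' => by
      obtain ⟨c, hcs, rfl⟩ := ExW.isRel_surj h hc hp hb'
      exact hb c hcs
    refine (mem_Lfl_iff h hco (by omega) a).2 ⟨y'.1, hy'.sel, fun s => ?_⟩
    obtain ⟨j, rfl⟩ := Nat.exists_eq_add_of_le' hi
    have h1 := hy.2 s
    rw [Nat.add_sub_cancel, Prod.smul_fst, Pi.smul_apply, smul_smul, ← pow_succ] at h1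
    rw [Nat.add_sub_cancel, h1]
  · have h1 := Rec.two_nH h hH hchi hf hi
    have h2 : (2 * nH S H (chiJ ch p) (i + 1) : ℝ) =
        ((2 * (nH S H (chiJ ch p) (i + 1) : ℤ) : ℤ) : ℝ) := by push_cast; rfl
    rw [h1, Int.cast_add] at h2
    have h3 := part_A (H := H) h hc hp hco hi
    have h4 := part_T (H := H) h hc hp hco hi
    rw [h4] at h2
    linarith
  · obtain ⟨b, hb, h1⟩ := ExW.exists_wcode h hc hp hd a hno
    exact Rec.sum_sign_zero h hH hchi hi hb h1

end Pool.Agent.SmH
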