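import Pool.Agent.Lib.SmH.L.StmtI
import Pool.Agent.Lib.SmH.Q.Tor
import Pool.Agent.Lib.SmJ.I.Many

/-!
# HEIGHTS (MP_48b749_nt), block L, module Big

`nH_big`: one element of level `j` which is counted gives many: `2 ^ (j - 1) (#V1) ^ (j + 1)` of them.
-/

set_option autoImplicit false

open Finset

namespace Pool.Agent.SmH

open Pool.Agent.SmJ Pool.Agent.SmJ.Sys

section tor

variable {G V V1 Pl : Type*} [Group G] [AddCommGroup V] [DistribMulAction G V]
  [AddCommGroup V1] [Module (ZMod 2) V1] {S : Sys G V V1 Pl}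

/-- `V[2 ^ k]` has at least `(#V1) ^ k` elements. -/
theorem card_tor_ge (hS : S.Ok) (k : ℕ) :
    Nat.card V1 ^ k ≤ Nat.card {Q : V | (2 : ℕ) ^ k • Q = 0} := by
  have := hS.fin1
  induction k with
  | zero =>
    have hs : {Q : V | (2 : ℕ) ^ 0 • Q = 0} = {0} := by
      ext Q
      simp
    rw [hs]
    simp
  | succ k ih =>
    have h1 : Finite {Q : V | (2 : ℕ) ^ (k + 1) • Q = 0} := (card_tor hS (k + 1)).1
    choose hf hhf using hS.half
    have h2 : ∀ w : V1, (2 : ℕ) • S.iota w = 0 := fun w => two_iota S w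
    have h3 : ∀ (Q : V) (w : V1), (2 : ℕ) • (hf Q + S.iota w) = Q := fun Q w => by
      rw [smul_add, hhf, h2, add_zero]
    let F : {Q : V | (2 : ℕ) ^ k • Q = 0} × V1 → {Q : V | (2 : ℕ) ^ (k + 1) • Q = 0} := fun x =>
      ⟨hf x.1.1 + S.iota x.2, by
        change (2 : ℕ) ^ (k + 1) • _ = 0
        rw [pow_succ, mul_smul, h3]
        exact x.1.2⟩
    have hF : Function.Injective F := by
      intro x x' he
      have e0 : hf x.1.1 + S.iota x.2 = hf x'.1.1 + S.iota x'.2 := congrArg (fun z => z.1) he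
      have e1 : x.1.1 = x'.1.1 := by rw [← h3 x.1.1 x.2, ← h3 x'.1.1 x'.2, e0]
      rw [e1] at e0
      exact Prod.ext (Subtype.ext e1) (hS.iota_inj (add_left_cancel e0))
    have h4 := Nat.card_le_card_of_injective F hF
    rw [Nat.card_prod] at h4
    rw [pow_succ]
    exact (Nat.mul_le_mul_right _ ih).trans h4

end tor

variable {G V V1 Pl M : Type} [Group G] [AddCommGroup V]
  [DistribMulAction G V] [AddCommGroup V1] [Module (ZMod 2) V1] [AddCommGroup M]
  [DistribMulAction G M] {S : Sys G V V1 Pl} {H : HData V M Pl} {chi : G → ZMod 2} {j : ℕ}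

/-- Odd multiples and torsion do not change the top. -/
theorem odd_top (hj : 1 ≤ j) {y : (G → V) × (Pl → V)} (hy : IsPr S chi j y) (u : ℕ) (s : G) :
    (2 : ℕ) ^ (j - 1) • ((2 * u + 1) • y.1 s) = (2 : ℕ) ^ (j - 1) • y.1 s := by
  have h1 : (2 : ℕ) ^ j • y.1 s = 0 := hy.sel.lev s
  have h2 : (2 : ℕ) ^ (j - 1) * (2 * u + 1) = u * 2 ^ j + 2 ^ (j - 1) := by
    have : (2 : ℕ) ^ j = 2 ^ (j - 1) * 2 := by rw [← pow_succ]; congr 1; omega
    rw [this]; ring
  rw [smul_smul, h2, add_smul, mul_smul, h1, smul_zero, zero_add]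

theorem isZ_mul (h : S.Ok) (hH : HOk S H) (hchi : S.HomG chi) (hj : 1 ≤ j)
    {y : (G → V) × (Pl → V)} (hy : IsZ S H chi j y) (u : ℕ) {z : V}
    (hz : (2 : ℕ) ^ (j + 1) • z = 0) : IsZ S H chi j ((2 * u + 1) • y + tor S chi z) where
  pr := (hy.pr.nsmul h _).add h (isPr_tor h hchi hz)
  top := by
    rintro ⟨z', hz', ht⟩
    refine hy.top ⟨z' - (2 : ℕ) ^ (j - 1) • z, ?_, fun s => ?_⟩
    · rw [smul_sub, hz', smul_smul, ← pow_add, show 2 + (j - 1) = j + 1 by omega, hz, sub_zero]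
    · have h1 := ht s
      change (2 : ℕ) ^ (j - 1) • ((2 * u + 1) • y.1 s + dl chi z s) = dl chi z' s at h1
      rw [smul_add, odd_top hj hy.pr] at h1
      rw [dl_sub, dl_nsmul, ← h1, add_sub_cancel_right]
  q0 := by
    rw [q_add_tor h hH hchi (hy.pr.nsmul h _) hz, q_nsmul h hH hchi hy.pr, hy.q0, smul_zero]

/-- The key of the injectivity. -/
theorem big_aux (hj : 1 ≤ j)
    (hinv : ∀ Q : V, (∀ s, dl chi Q s = 0) → (2 : ℕ) • Q = 0)
    {y : (G → V) × (Pl → V)} (hy : IsZ S H chi j y) {u u' : ℕ} (hu : u < 2 ^ (j - 1))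
    (hlt : u' < u) {z z' : V}
    (he : (2 * u + 1) • y + tor S chi z = (2 * u' + 1) • y + tor S chi z') : False := by
  have h1 : ∀ s, (2 * (u - u')) • y.1 s = dl chi (z' - z) s := by
    intro s
    have e1 : (2 * u + 1) • y.1 s + dl chi z s = (2 * u' + 1) • y.1 s + dl chi z' s :=
      congrFun (congrArg Prod.fst he) s
    have e2 : 2 * u + 1 = 2 * (u - u') + (2 * u' + 1) := by omega
    rw [e2, add_smul, add_assoc] at e1
    have e3 : (2 * (u - u')) • y.1 s + ((2 * u' + 1) • y.1 s + dl chi z s) -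
        ((2 * u' + 1) • y.1 s + dl chi z s) =
        ((2 * u' + 1) • y.1 s + dl chi z' s) - ((2 * u' + 1) • y.1 s + dl chi z s) := by
      rw [e1]
    rw [add_sub_cancel_right] at e3
    rw [e3, dl_sub]
    abel
  -- write `2 (u - u') = 2 ^ v * (2 w + 1)`
  obtain ⟨v, m, hm, hn⟩ := Nat.exists_eq_two_pow_mul_odd (n := 2 * (u - u')) (by omega)
  obtain ⟨w, hw⟩ := hm
  have hvj : v < j := by
    have hlt2 : 2 * (u - u') < 2 ^ j := by
      have : (2 : ℕ) ^ j = 2 ^ (j - 1) * 2 := by rw [← pow_succ]; congr 1; omega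
      omega
    have hle : 2 ^ v ≤ 2 * (u - u') := by
      rw [hn]
      exact Nat.le_mul_of_pos_right _ (by omega)
    exact (Nat.pow_lt_pow_iff_right (by norm_num)).1 (hle.trans_lt hlt2)
  have h2 : ∀ s, (2 : ℕ) ^ (j - 1) • y.1 s = dl chi ((2 : ℕ) ^ (j - 1 - v) • (z' - z)) s := by
    intro s
    rw [dl_nsmul, ← h1 s, hn, hw, smul_smul, ← mul_assoc, ← pow_add,
      show j - 1 - v + v = j - 1 by omega, mul_smul, odd_top hj hy.pr]
  refine hy.top ⟨_, ?_, h2⟩
  have h3 : (2 : ℕ) • ((2 : ℕ) • ((2 : ℕ) ^ (j - 1 - v) • (z' - z))) = 0 := by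
    refine hinv _ fun s => ?_
    rw [dl_nsmul, ← h2 s, smul_smul, ← pow_succ', show j - 1 + 1 = j by omega]
    exact hy.pr.sel.lev s
  rw [sq, mul_smul]
  exact h3

/-- One element gives many. -/
theorem nH_big (h : S.Ok) (hH : HOk S H) (hchi : S.HomG chi) (hj : 1 ≤ j)
    (hinv : ∀ Q : V, (∀ s, dl chi Q s = 0) → (2 : ℕ) • Q = 0)
    (hfin : Finite {y : (G → V) × (Pl → V) // IsPr S chi j y})
    {y : (G → V) × (Pl → V)} (hy : IsZ S H chi j y) :
    2 ^ (j - 1) * Nat.card V1 ^ (j + 1) ≤ nH S H chi j := by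
  have hf2 : Finite {y : (G → V) × (Pl → V) // IsZ S H chi j y} :=
    Finite.of_injective (fun y => (⟨y.1, y.2.pr⟩ : {y : (G → V) × (Pl → V) // IsPr S chi j y}))
      fun _ _ he => Subtype.ext (congrArg (fun x => x.1) he)
  let F : Fin (2 ^ (j - 1)) × {Q : V | (2 : ℕ) ^ (j + 1) • Q = 0} →
      {y : (G → V) × (Pl → V) // IsZ S H chi j y} := fun x =>
    ⟨_, isZ_mul h hH hchi hj hy x.1.1 x.2.2⟩
  have hF : Function.Injective F := by
    intro x x' he
    have e0 : (2 * x.1.1 + 1) • y + tor S chi x.2.1 = (2 * x'.1.1 + 1) • y + tor S chi x'.2.1 :=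
      congrArg (fun z => z.1) he
    have e1 : x.1.1 = x'.1.1 := by
      rcases lt_trichotomy x.1.1 x'.1.1 with hl | hl | hl
      · exact (big_aux hj hinv hy x'.1.2 hl e0.symm).elim
      · exact hl
      · exact (big_aux hj hinv hy x.1.2 hl e0).elim
    rw [e1] at e0
    have e2 := add_left_cancel e0
    have e3 : (tor S chi x.2.1).2 S.inf = (tor S chi x'.2.1).2 S.inf := by rw [e2]
    rw [tor_snd_bad h.inf_not_good, tor_snd_bad h.inf_not_good] at e3
    exact Prod.ext (Fin.ext e1) (Subtype.ext e3)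
  have h4 := Nat.card_le_card_of_injective F hF
  rw [Nat.card_prod, Nat.card_fin] at h4
  exact (Nat.mul_le_mul_left _ (card_tor_ge h (j + 1))).trans h4

end Pool.Agent.SmH
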