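import Pool.Agent.Lib.SmJ.L.NUgrid
import Pool.Agent.Lib.Sm.L.LevelSum

/-!
HEIGHTS, block L: the sum over a grid, divided into the classes of an equivalence relation with
boundedly many classes in every symbol class.
-/

set_option autoImplicit false

open Polynomial

namespace Pool.Agent.SmH

open Pool.Agent.SmJ
open Pool.Agent.Sm (leg Irr PD Dir N0 fsum fsum_eq fsum_congr grid_sum)

variable {k : Type} [Field k] {V1 : Type} [AddCommGroup V1] [Module (ZMod 2) V1]

open Classical in
/-- The near uniformity of the patterns on the grid `g` (conclusion of `nu_grid`). -/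
def NUat [∀ n, Fintype (Irr k n)] (d : TwData k V1) (g : k[X] × Finset ℕ) : Prop :=
  ∀ (s : PatG d g) (S : Finset g.2),
    (Nat.card {r : ∀ i : {i // i ∉ S}, Irr k (i.1 : ℕ) //
        ∃ P : SmK.Pts k g.2, patG d g P = s ∧ ∀ i, r i = P i} : ℝ) *
      2 ^ ((g.2.card - S.card) * (d.h + Nat.card (PD g.1)) + (g.2.card - S.card).choose 2) ≤
        2 * ∏ i ∈ Sᶜ, (Nat.card (Irr k (i : ℕ)) : ℝ)

theorem level_gen [Finite k] [∀ n, Fintype (Irr k n)] (d : TwData k V1) (g : k[X] × Finset ℕ)
    (hnu : NUat d g) {I : Type} [Fintype I] (r : Setoid (SmK.Pts k g.2))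
    (hr : ∀ x x', r x x' → patG d g x = patG d g x')
    (Cond : SmK.Pts k g.2 → I → Prop) (hCond : ∀ x x' a, r x x' → Cond x a → Cond x' a)
    (gf : I → SmK.Pts k g.2 → ℝ) (typ : PatG d g → Prop) (m : ℕ) (η : ℝ) (hη : 0 ≤ η)
    (C1 N2 : ℕ)
    (hcls : ∀ s, typ s → ∃ f : SmK.Pts k g.2 → Fin C1, ∀ x x', patG d g x = s →
      patG d g x' = s → f x = f x' → r x x')
    (hidx : ∀ s, typ s → ∃ U : Set I, Nat.card U ≤ N2 ∧
      ∀ x, patG d g x = s → ∀ a, Cond x a → a ∈ U)
    (hdir : ∀ P a, typ (patG d g P) → Cond P a → ∃ tt : Dir m ↪ g.2, ∀ P', r P P' →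
      |fsum (fun x : SmK.Pts k g.2 => (∀ t, (∀ i, tt i ≠ t) → x t = P' t) ∧ r P' x) (gf a)| ≤
        η * ((∏ i, (Nat.card (Irr k (tt i : ℕ)) : ℝ)) /
          2 ^ ((m + 2) * (d.h + Nat.card (PD g.1) + (g.2.card - (m + 2)))))) :
    |fsum (fun x => typ (patG d g x)) (fun x => fsum (Cond x) (fun a => gf a x))| ≤
      (C1 * N2 : ℕ) * η * 2 ^ (1 + (m + 2).choose 2) *
        ∏ t : g.2, (Fintype.card (Irr k (t : ℕ)) : ℝ) := by
  classical
  have hcardT : Fintype.card g.2 = g.2.card := Fintype.card_coe g.2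
  let w : PatG d g → Quotient r → I → ℝ := fun _ t a => if Cond t.out a then 1 else 0
  have hw : ∀ (x : SmK.Pts k g.2) (a : I), Cond (Quotient.mk r x).out a ↔ Cond x a := by
    intro x a
    have h1 : r (Quotient.mk r x).out x := Quotient.exact (Quotient.out_eq (Quotient.mk r x))
    exact ⟨hCond _ _ a h1, hCond _ _ a (r.symm h1)⟩
  have hmk : ∀ x x', Quotient.mk r x = Quotient.mk r x' ↔ r x x' := fun x x' =>
    ⟨fun h => Quotient.exact h, fun h => Quotient.sound h⟩
  have hFin : Finite (Quotient r) := inferInstance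
  have key := grid_sum (ι := g.2) (fun t => Irr k (t : ℕ)) (patG d g)
    (fun x => Quotient.mk r x) typ w gf 1 η (C1 * N2 : ℕ) (m + 2) (d.h + Nat.card (PD g.1))
    hη zero_le_one (Nat.cast_nonneg _) ?_ ?_ ?_ ?_ ?_
  · rw [mul_one] at key
    refine le_trans (le_of_eq ?_) key
    congr 1
    refine fsum_congr (fun x => Iff.rfl) fun x _ => ?_
    rw [fsum]
    refine Finset.sum_congr rfl fun a _ => ?_
    simp only [w]
    by_cases hc : Cond x a
    · rw [if_pos hc, if_pos ((hw x a).2 hc), one_mul]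
    · rw [if_neg hc, if_neg (fun h => hc ((hw x a).1 h)), zero_mul]
  · intro s t a _ _
    simp only [w]
    split_ifs
    · rw [abs_one]
    · rw [abs_zero]
      exact zero_le_one
  · -- number of classes
    intro s hs
    obtain ⟨f, hf⟩ := hcls s hs
    obtain ⟨U, hU, hU'⟩ := hidx s hs
    have hfinU : Finite U := Subtype.finite
    have h1 : Nat.card {q : Quotient r × I // w s q.1 q.2 ≠ 0 ∧
        ∃ P, patG d g P = s ∧ Quotient.mk r P = q.1} ≤ Nat.card (Fin C1 × U) := by
      let F : {q : Quotient r × I // w s q.1 q.2 ≠ 0 ∧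
          ∃ P, patG d g P = s ∧ Quotient.mk r P = q.1} → Fin C1 × U := fun q =>
        (f q.2.2.choose, ⟨q.1.2, hU' q.2.2.choose q.2.2.choose_spec.1 _ (by
          have h2 := q.2.1
          have h3 := q.2.2.choose_spec.2
          by_contra h4
          apply h2
          simp only [w]
          rw [← h3]
          exact if_neg fun h5 => h4 ((hw _ _).1 h5))⟩)
      apply Nat.card_le_card_of_injective F
      intro q q' h
      have h2 : f q.2.2.choose = f q'.2.2.choose := congrArg Prod.fst h
      have h3 : q.1.2 = q'.1.2 := congrArg (fun z : Fin C1 × U => z.2.1) h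
      have h4 := hf _ _ q.2.2.choose_spec.1 q'.2.2.choose_spec.1 h2
      have h5 : q.1.1 = q'.1.1 := by
        rw [← q.2.2.choose_spec.2, ← q'.2.2.choose_spec.2]
        exact (hmk _ _).2 h4
      exact Subtype.ext (Prod.ext h5 h3)
    have h2 : Nat.card (Fin C1 × U) ≤ C1 * N2 := by
      rw [Nat.card_prod, Nat.card_eq_fintype_card (α := Fin C1), Fintype.card_fin]
      exact Nat.mul_le_mul_left _ hU
    exact_mod_cast h1.trans h2
  · -- directions
    rintro s t a hs hwa ⟨P0, rfl, rfl⟩
    have hc : Cond P0 a := by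
      by_contra hc
      exact hwa (if_neg fun h => hc ((hw P0 a).1 h))
    obtain ⟨tt, htt⟩ := hdir P0 a hs hc
    refine ⟨Finset.univ.map tt, ?_, ?_⟩
    · rw [Finset.card_map, Finset.card_univ, Fintype.card_option, Fintype.card_option,
        Fintype.card_fin]
    · intro P hPs hPt
      have hb := htt P ((hmk P0 P).1 hPt.symm)
      rw [hcardT, Finset.prod_map]
      have hfil : fsum (fun x : SmK.Pts k g.2 =>
          (∀ t, (∀ i, tt i ≠ t) → x t = P t) ∧ r P x) (gf a) =
          fsum (fun x : (i : g.2) → Irr k (i : ℕ) =>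
            (∀ i ∉ Finset.univ.map tt, x i = P i) ∧ patG d g x = patG d g P0 ∧
              Quotient.mk r x = Quotient.mk r P0) (gf a) := by
        refine fsum_congr (fun x => ?_) fun x _ => rfl
        simp only [Finset.mem_univ, true_and, Finset.mem_map, not_exists]
        refine and_congr_right fun _ => ⟨fun h => ⟨?_, ?_⟩, fun h => ?_⟩
        · rw [← hPs]
          exact (hr _ _ h).symm
        · rw [← hPt]
          exact (hmk x P).2 (r.symm h)
        · have h1 := h.2
          rw [← hPt] at h1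
          exact r.symm ((hmk x P).1 h1)
      rw [hfil] at hb
      have hprod : ∏ i, (Nat.card (Irr k (tt i : ℕ)) : ℝ) =
          ∏ i, (Fintype.card (Irr k (tt i : ℕ)) : ℝ) :=
        Finset.prod_congr rfl fun i _ => by rw [Nat.card_eq_fintype_card]
      rw [hprod] at hb
      exact hb
  · -- near uniformity
    intro s T hT
    have h3 := hnu s T
    rw [hT] at h3
    rw [hcardT]
    refine le_trans h3 (le_of_eq ?_)
    congr 1
    exact Finset.prod_congr rfl fun i _ => by rw [Nat.card_eq_fintype_card]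
  · -- number of patterns
    rw [hcardT, card_PatG]

end Pool.Agent.SmH
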