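import Pool.Agent.Lib.SmH.L.LevelH
import Pool.Agent.Lib.SmH.L.Big
import Pool.Agent.Lib.SmH.I.BdD
import Pool.Agent.Lib.SmJ.L.AbsMain

/-!
# HEIGHTS (MP_48b749_nt), block L, the counting theorem

`main_H`: for `100` per cent of the monic squarefree `D` prime to the bad primes there is no rigid
Selmer element of level `s` with independent top and height zero.
-/

set_option autoImplicit false

open Polynomial

namespace Pool.Agent.SmH

open Pool.Agent.SmJ
open Pool.Agent.SmK (DD IsGrid Pts ev Dist)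
open Pool.Agent.Sm (leg Irr PD Dir JG vecG vecG_deg_inr N0 N0_large fsum fsum_eq fsum_congr)

section markov

/-- The first moment: the recursion gives a bound for the number of the points with `f m ≠ 0`. -/
theorem markov_H {Q : Type} (s : Finset Q) (f : ℕ → Q → ℝ) (g : ℕ → Q → ℝ) (B X N : ℝ)
    (hN : 1 ≤ N) (hs : (s.card : ℝ) ≤ X) (m : ℕ) (hm : 1 ≤ m)
    (hrec : ∀ j, 1 ≤ j → j < m → ∀ q ∈ s, f (j + 1) q ≤ N * f j q + g j q)
    (hg : ∀ j, 1 ≤ j → j < m → ∑ q ∈ s, g j q ≤ X)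
    (h1 : ∀ q ∈ s, f 1 q ≤ B) (h0 : ∀ q ∈ s, 0 ≤ f m q) (hB : 0 ≤ B) (P : Q → Prop)
    [DecidablePred P] (c : ℝ) (hc : 0 < c) (hP : ∀ q ∈ s, P q → c * N ^ m ≤ f m q) :
    ((s.filter P).card : ℝ) ≤ (B + m) / c * X := by
  have hX0 : 0 ≤ X := le_trans (Nat.cast_nonneg _) hs
  have hN0 : 0 < N := lt_of_lt_of_le one_pos hN
  have key : ∀ j, 1 ≤ j → j ≤ m → ∑ q ∈ s, f j q ≤ (B + j) * X * N ^ j := by
    intro j hj
    induction j, hj using Nat.le_induction with
    | base =>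
      intro _
      have h2 : ∑ q ∈ s, f 1 q ≤ s.card * B := by
        rw [← nsmul_eq_mul]
        exact Finset.sum_le_card_nsmul _ _ _ h1
      have h3 : (s.card : ℝ) * B ≤ X * B := mul_le_mul_of_nonneg_right hs hB
      have h4 : X * B ≤ (B + (1 : ℕ)) * X * N ^ 1 := by
        rw [pow_one, Nat.cast_one]
        have h5 : X * B ≤ (B + 1) * X := by nlinarith
        refine h5.trans ?_
        exact le_mul_of_one_le_right (by positivity) hN
      linarith
    | succ j hj ih =>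
      intro hjm
      have h2 := ih (by omega)
      have h3 : ∑ q ∈ s, f (j + 1) q ≤ ∑ q ∈ s, (N * f j q + g j q) :=
        Finset.sum_le_sum fun q hq => hrec j hj (by omega) q hq
      rw [Finset.sum_add_distrib, ← Finset.mul_sum] at h3
      have h4 := hg j hj (by omega)
      have h5 : N * ∑ q ∈ s, f j q ≤ N * ((B + j) * X * N ^ j) :=
        mul_le_mul_of_nonneg_left h2 hN0.le
      have h6 : X ≤ X * N ^ (j + 1) := le_mul_of_one_le_right hX0 (one_le_pow₀ hN)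
      calc ∑ q ∈ s, f (j + 1) q ≤ N * ((B + j) * X * N ^ j) + X * N ^ (j + 1) := by linarith
        _ = (B + ((j + 1 : ℕ) : ℝ)) * X * N ^ (j + 1) := by push_cast; ring
  have h2 := key m hm le_rfl
  have h3 : ((s.filter P).card : ℝ) * (c * N ^ m) ≤ ∑ q ∈ s, f m q := by
    have h4 : ((s.filter P).card : ℝ) * (c * N ^ m) ≤ ∑ q ∈ s.filter P, f m q := by
      rw [← nsmul_eq_mul]
      refine Finset.card_nsmul_le_sum _ _ _ fun q hq => ?_
      rw [Finset.mem_filter] at hq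
      exact hP q hq.1 hq.2
    refine h4.trans (Finset.sum_le_sum_of_subset_of_nonneg (Finset.filter_subset _ _) ?_)
    exact fun q hq _ => h0 q hq
  have h4 : 0 < c * N ^ m := by positivity
  have h5 : ((s.filter P).card : ℝ) ≤ (B + m) * X * N ^ m / (c * N ^ m) := by
    rw [le_div_iff₀ h4]
    exact h3.trans h2
  refine h5.trans (le_of_eq ?_)
  have h6 : N ^ m ≠ 0 := by positivity
  field_simp

end markov

variable {k : Type} [Field k] {G V V1 Pl M : Type} [Group G] [AddCommGroup V]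
  [DistribMulAction G V] [AddCommGroup V1] [Module (ZMod 2) V1] [AddCommGroup M]
  [DistribMulAction G M] {S : Sys G V V1 Pl} {H : HData V M Pl} {ch : k[X] → G → ZMod 2}
  {d : TwData k V1} {pl : k[X] → Pl}

/-- `(B + m) / 2 ^ (m - 1)` tends to `0`. -/
theorem exists_m0 (B ε : ℝ) (hε : 0 < ε) :
    ∃ m₀ : ℕ, ∀ m ≥ m₀, (B + m) / 2 ^ (m - 1) ≤ ε := by
  have h1 : Filter.Tendsto (fun m : ℕ => (m : ℝ) ^ 1 * (1 / 2 : ℝ) ^ m) Filter.atTop (nhds 0) :=
    tendsto_pow_const_mul_const_pow_of_lt_one 1 (by norm_num) (by norm_num)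
  have h2 : Filter.Tendsto (fun m : ℕ => (1 / 2 : ℝ) ^ m) Filter.atTop (nhds 0) :=
    tendsto_pow_atTop_nhds_zero_of_lt_one (by norm_num) (by norm_num)
  have h3 : Filter.Tendsto (fun m : ℕ => 2 * B * (1 / 2 : ℝ) ^ m +
      2 * ((m : ℝ) ^ 1 * (1 / 2 : ℝ) ^ m)) Filter.atTop (nhds (2 * B * 0 + 2 * 0)) :=
    (h2.const_mul _).add (h1.const_mul _)
  rw [mul_zero, mul_zero, add_zero] at h3
  have h4 := h3.eventually (gt_mem_nhds hε)
  rw [Filter.eventually_atTop] at h4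
  obtain ⟨m₁, hm₁⟩ := h4
  refine ⟨max m₁ 1, fun m hm => ?_⟩
  have h5 := (hm₁ m (le_trans (le_max_left _ _) hm)).le
  have hm1 : 1 ≤ m := le_trans (le_max_right _ _) hm
  refine le_trans (le_of_eq ?_) h5
  obtain ⟨m, rfl⟩ := Nat.exists_eq_add_of_le hm1
  rw [show 1 + m - 1 = m by omega, pow_one, add_comm 1 m]
  have h6 : (1 / 2 : ℝ) ^ (m + 1) = 1 / (2 * 2 ^ m) := by
    rw [div_pow, one_pow, pow_succ, mul_comm]
  rw [h6]
  field_simp

theorem main_H_DD [Fintype V1] [Nontrivial V1] [Finite k] (h : S.Ok) (hH : HOk S H)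
    (hc : ChOk S ch d pl)
    (hGA : ∀ m, 1 ≤ m → GridThmA S H ch d m) (hGT : ∀ m, 1 ≤ m → GridThmT S H ch d m)
    (hEA : ∀ m, 1 ≤ m → EqvH S H ch d m (m - 1)) (hET : ∀ m, 1 ≤ m → EqvH S H ch d m m)
    (hFA : ∀ m, 1 ≤ m → FewTyp S H ch d m (m - 1)) (hFT : ∀ m, 1 ≤ m → FewTyp S H ch d m m)
    (hfa : ∀ (J : Type) (_ : Fintype J) (_ : Nonempty J) (p : J → k[X]),
      PVec d p → HFacts S H ch d p) (ε : ℝ) (hε : 0 < ε) :
    ∃ m₀ : ℕ, ∀ m ≥ m₀, ∃ n₀ : ℕ, ∀ n ≥ n₀,
      (Nat.card {D : k[X] // D ∈ DD (badP d) n ∧ ∃ y, IsZ S H (ch D) m y} : ℝ) ≤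
        ε * (DD (badP d) n).card := by
  classical
  have hinst : ∀ n, Fintype (Irr k n) := fun n => Fintype.ofFinite _
  have h2 := hc.two
  obtain ⟨C0, hJK⟩ := JG.JKH h2 d
  obtain ⟨R, hR⟩ := hJK (ε / 2) (by positivity)
  set N : ℕ := Nat.card V1 with hNdef
  have hN1 : 1 ≤ N := Nat.card_pos
  have hN0 : (0 : ℝ) < N := by exact_mod_cast hN1
  obtain ⟨Bd, hBd0, hBd⟩ := exists_bd h
  set B : ℝ := (((2 ^ R) ^ 1 * (N ^ 1 * Bd) ^ nBad h : ℕ) : ℝ) with hB
  have hB0 : 0 ≤ B := Nat.cast_nonneg _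
  obtain ⟨m₁, hm₁⟩ := exists_m0 B (ε / 2) (by positivity)
  refine ⟨max m₁ 1, fun m hm => ?_⟩
  have hm1 : 1 ≤ m := le_trans (le_max_right _ _) hm
  have hmε := hm₁ m (le_trans (le_max_left _ _) hm)
  obtain ⟨n1, hn1⟩ := hR (m + 1) 2
  have hlev : ∀ j : ℕ, ∃ n₀ : ℕ, 1 ≤ j → j < m → ∀ n ≥ n₀, ∀ g : k[X] × Finset ℕ,
      (∀ P ∈ badP d, P.natDegree < N0 n) → IsGrid (badP d) (N0 n) n g →
      ((Nat.card (PD g.1) + g.2.card : ℕ) : ℝ) ≤ 2 * Real.log n →
      |fsum (fun x : Pts k g.2 =>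
          ∃ x', patG d g x' = patG d g x ∧ TypHV d (vecG g x') R (m + 1) (N0 n))
        (fun x => indA S H ch d (vecG g x) j)| ≤
          1 * ∏ t : g.2, (Fintype.card (Irr k (t : ℕ)) : ℝ) ∧
      |fsum (fun x : Pts k g.2 =>
          ∃ x', patG d g x' = patG d g x ∧ TypHV d (vecG g x') R (m + 1) (N0 n))
        (fun x => indT S H ch d (vecG g x) j)| ≤
          1 * ∏ t : g.2, (Fintype.card (Irr k (t : ℕ)) : ℝ) := by
    intro j
    by_cases hj : 1 ≤ j
    · by_cases hjm : j < m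
      · obtain ⟨n₀, h3⟩ := level_A h hc j hj (hGA j hj) (hEA j hj) (hFA j hj) R (m + 1)
          (by omega) 1 one_pos
        obtain ⟨n₁, h4⟩ := level_T h hc hfa j hj (hGT j hj) (hET j hj) (hFT j hj) R (m + 1)
          (by omega) 1 one_pos
        exact ⟨max n₀ n₁, fun _ _ n hn g h5 h6 h7 =>
          ⟨h3 n ((le_max_left _ _).trans hn) g h5 h6 h7,
            h4 n ((le_max_right _ _).trans hn) g h5 h6 h7⟩⟩
      · exact ⟨0, fun _ h => absurd h hjm⟩
    · exact ⟨0, fun h => absurd h hj⟩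
  choose nlev hnlev using hlev
  obtain ⟨n2, hn2⟩ := N0_large (∑ i, (d.ell i).natDegree)
  refine ⟨max (max n1 ((Finset.range m).sup nlev)) (max n2 1), fun n hn => ?_⟩
  have hnn1 : n ≥ n1 := le_trans (le_trans (le_max_left _ _) (le_max_left _ _)) hn
  have hnlev' : ∀ j, 1 ≤ j → j < m → n ≥ nlev j := fun j _ hj =>
    le_trans (Finset.le_sup (f := nlev) (Finset.mem_range.2 hj))
      (le_trans (le_trans (le_max_right _ _) (le_max_left _ _)) hn)
  have hnn2 : n ≥ n2 := le_trans (le_trans (le_max_left _ _) (le_max_right _ _)) hn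
  have hnone : 1 ≤ n := le_trans (le_trans (le_max_right _ _) (le_max_right _ _)) hn
  have hNn : ∀ P ∈ badP d, P.natDegree < N0 n := by
    intro P hP
    obtain ⟨i, rfl⟩ := mem_badP.1 hP
    exact lt_of_le_of_lt (Finset.single_le_sum (f := fun i => (d.ell i).natDegree)
      (fun _ _ => Nat.zero_le _) (Finset.mem_univ i)) (hn2 n hnn2)
  set X : ℝ := ((DD (badP d) n).card : ℝ) with hX
  have hX0 : 0 ≤ X := by rw [hX]; exact Nat.cast_nonneg _
  -- the points of all grids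
  let Gr : Type := {g : k[X] × Finset ℕ // g ∈ SmK.Grid (badP d) (N0 n) n}
  let Dty : Type := Σ g : Gr, Pts k g.1.2
  have hgr : ∀ g : Gr, IsGrid (badP d) (N0 n) n g.1 := fun g => SmK.mem_Grid.1 g.2
  let few : Gr → Prop := fun g => ((Nat.card (PD g.1.1) + g.1.2.card : ℕ) : ℝ) ≤ 2 * Real.log n
  let ty : Dty → Prop := fun q => ∃ x', patG d q.1.1 x' = patG d q.1.1 q.2 ∧
    TypHV d (vecG q.1.1 x') R (m + 1) (N0 n)
  let s : Finset Dty := Finset.univ.filter fun q => few q.1 ∧ ty q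
  let e : Dty ≃ {D : k[X] // D ∈ DD (badP d) n ∧ Dist (N0 n) D} :=
    SmK.gridEquiv (badP d) (badP_irr d) (N0 n) n hNn
  have he : ∀ q : Dty, (e q).1 = ev q.1.1 q.2 := fun q =>
    SmK.gridEquiv_apply (badP d) (badP_irr d) (N0 n) n hNn q
  have hpv : ∀ q : Dty, PVec d (vecG q.1.1 q.2) := fun q => pvec_vecG hNn (hgr q.1) q.2
  have hne : ∀ q : Dty, Nonempty (JG q.1.1) := fun q => nonempty_JG hnone hNn (hgr q.1) q.2
  have hfq : ∀ q : Dty, HFacts S H ch d (vecG q.1.1 q.2) := fun q =>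
    hfa _ _ (hne q) _ (hpv q)
  have hco : ∀ q : Dty, CodeOk S ch d (vecG q.1.1 q.2) := fun q =>
    have := hne q
    Code.codeOk h hc (hpv q)
  have hcardD : (Fintype.card Dty : ℝ) ≤ X := by
    rw [hX, ← Nat.card_eq_fintype_card, Nat.card_congr e]
    have h3 : (Nat.card {D : k[X] // D ∈ DD (badP d) n ∧ Dist (N0 n) D}) ≤
        Nat.card {D : k[X] // D ∈ DD (badP d) n} :=
      Nat.card_le_card_of_injective (fun D => ⟨D.1, D.2.1⟩) fun D D' h =>
        Subtype.ext (congrArg (fun z : {D : k[X] // D ∈ DD (badP d) n} => z.1) h)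
    have h4 : Nat.card {D : k[X] // D ∈ DD (badP d) n} = (DD (badP d) n).card := by
      rw [Nat.card_eq_fintype_card, Fintype.card_coe]
    rw [h4] at h3
    exact_mod_cast h3
  have hscard : (s.card : ℝ) ≤ X := by
    refine le_trans ?_ hcardD
    exact_mod_cast Finset.card_le_univ s
  -- typical points
  have htyq : ∀ q : Dty, ty q → TypHV d (vecG q.1.1 q.2) R (m + 1) (N0 n) := by
    rintro q ⟨x', h3, h4⟩
    exact h4.of_symEq h2 (pvec_vecG hNn (hgr q.1) x') (hpv q)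
      ((symEq_iff h2 hNn (hgr q.1) _ _).2 h3)
  -- the sums over the typical points
  have hsum : ∀ (F : Dty → ℝ), (∀ g : Gr, few g → |fsum (fun x : Pts k g.1.2 =>
        ∃ x', patG d g.1 x' = patG d g.1 x ∧ TypHV d (vecG g.1 x') R (m + 1) (N0 n))
        (fun x => F ⟨g, x⟩)| ≤ 1 * ∏ t : g.1.2, (Fintype.card (Irr k (t : ℕ)) : ℝ)) →
      ∑ q ∈ s, F q ≤ X := by
    intro F hF
    have h5 : ∑ q ∈ s, F q = ∑ g : Gr, if few g then fsum (fun x : Pts k g.1.2 =>
          ∃ x', patG d g.1 x' = patG d g.1 x ∧ TypHV d (vecG g.1 x') R (m + 1) (N0 n))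
          (fun x => F ⟨g, x⟩) else 0 := by
      rw [Finset.sum_filter, Fintype.sum_sigma]
      refine Finset.sum_congr rfl fun g _ => ?_
      by_cases hf : few g
      · rw [if_pos hf]
        unfold fsum
        refine Finset.sum_congr rfl fun x _ => ?_
        by_cases hx : ty ⟨g, x⟩
        · rw [if_pos ⟨hf, hx⟩, if_pos hx]
        · rw [if_neg fun h => hx h.2, if_neg hx]
      · rw [if_neg hf]
        exact Finset.sum_eq_zero fun x _ => if_neg fun h => hf h.1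
    rw [h5]
    have h6 : (∑ g : Gr, if few g then fsum (fun x : Pts k g.1.2 =>
          ∃ x', patG d g.1 x' = patG d g.1 x ∧ TypHV d (vecG g.1 x') R (m + 1) (N0 n))
          (fun x => F ⟨g, x⟩) else 0) ≤
        ∑ g : Gr, (Fintype.card (Pts k g.1.2) : ℝ) := by
      refine Finset.sum_le_sum fun g _ => ?_
      have h7 : (Fintype.card (Pts k g.1.2) : ℝ) =
          ∏ t : g.1.2, (Fintype.card (Irr k (t : ℕ)) : ℝ) := by
        rw [Fintype.card_pi]
        push_cast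
        rfl
      rw [h7]
      split_ifs with hf
      · refine le_trans (le_abs_self _) ((hF g hf).trans (le_of_eq (one_mul _)))
      · exact Finset.prod_nonneg fun _ _ => Nat.cast_nonneg _
    have h7 : ∑ g : Gr, (Fintype.card (Pts k g.1.2) : ℝ) = (Fintype.card Dty : ℝ) := by
      rw [Fintype.card_sigma]
      push_cast
      rfl
    exact h6.trans (h7.le.trans hcardD)
  have hmk := markov_H s (fun j q => (nH S H (chiJ ch (vecG q.1.1 q.2)) j : ℝ))
    (fun j q => 1 / 2 * indA S H ch d (vecG q.1.1 q.2) j +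
      1 / 2 * indT S H ch d (vecG q.1.1 q.2) j) B X N (by exact_mod_cast hN1) hscard m hm1
    (fun j hj _ q _ => ?_) ?_ ?_ (fun q _ => Nat.cast_nonneg _) hB0
    (fun q => ∃ y, IsZ S H (chiJ ch (vecG q.1.1 q.2)) m y) (2 ^ (m - 1)) (by positivity) ?_
  · -- conclusion
    have h5 : (Nat.card {D : k[X] // D ∈ DD (badP d) n ∧ ∃ y, IsZ S H (ch D) m y} : ℝ) ≤
        (Nat.card {D : k[X] // D ∈ DD (badP d) n ∧ ¬ JG.TypH d D R (m + 1) 2 (N0 n)} : ℝ) +
        ((s.filter fun q => ∃ y, IsZ S H (chiJ ch (vecG q.1.1 q.2)) m y).card : ℝ) := by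
      have hfin1 : Finite {D : k[X] // D ∈ DD (badP d) n ∧
          ¬ JG.TypH d D R (m + 1) 2 (N0 n)} :=
        Finite.of_injective (β := {D : k[X] // D ∈ DD (badP d) n}) (fun D => ⟨D.1, D.2.1⟩)
          fun D D' h => Subtype.ext
            (congrArg (fun z : {D : k[X] // D ∈ DD (badP d) n} => z.1) h)
      have h6 : (s.filter fun q => ∃ y, IsZ S H (chiJ ch (vecG q.1.1 q.2)) m y).card =
          Nat.card {q : Dty // q ∈ s.filter fun q =>
            ∃ y, IsZ S H (chiJ ch (vecG q.1.1 q.2)) m y} := by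
        rw [Nat.card_eq_fintype_card, Fintype.card_coe]
      rw [h6, ← Nat.cast_add, ← Nat.card_sum]
      norm_cast
      have hmap : ∀ D : {D : k[X] // D ∈ DD (badP d) n ∧ ∃ y, IsZ S H (ch D) m y},
          ∃ y : {D : k[X] // D ∈ DD (badP d) n ∧ ¬ JG.TypH d D R (m + 1) 2 (N0 n)} ⊕
            {q : Dty // q ∈ s.filter fun q => ∃ y, IsZ S H (chiJ ch (vecG q.1.1 q.2)) m y},
          D.1 = Sum.elim (fun z => z.1) (fun q => ev q.1.1.1 q.1.2) y := by
        rintro ⟨D, hD, hbad⟩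
        by_cases hT : JG.TypH d D R (m + 1) 2 (N0 n)
        · have hdist : Dist (N0 n) D := by
            intro P hP Q hQ hPN hPQ
            exact congrArg Subtype.val (hT.typ.distinct ⟨P, hP⟩ ⟨Q, hQ⟩ hPN hPQ)
          obtain ⟨q, hq⟩ := e.surjective ⟨D, hD, hdist⟩
          have hqD : ev q.1.1 q.2 = D := by rw [← he q, hq]
          have hprod : ∏ j, vecG q.1.1 q.2 j = D := by rw [prod_vecG (hgr q.1), hqD]
          have hTJ : TypHV d (vecG q.1.1 q.2) R (m + 1) (N0 n) :=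
            typHV_of_typH (hpv q) (by rw [hprod]; exact hT)
          have hfew : few q.1 := by
            have h7 : Nat.card (PD D) = Nat.card (PD q.1.1.1) + q.1.1.2.card := by
              have h8 := Nat.card_congr (eqJ (hpv q))
              rw [hprod] at h8
              rw [h8, Nat.card_sum, Nat.card_eq_fintype_card (α := q.1.1.2), Fintype.card_coe]
            have h9 := hT.typ.few
            rw [h7, (SmK.mem_DD.1 hD).2.1] at h9
            exact h9
          refine ⟨Sum.inr ⟨q, ?_⟩, hqD.symm⟩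
          simp only [s, Finset.mem_filter, Finset.mem_univ, true_and]
          refine ⟨⟨hfew, q.2, rfl, hTJ⟩, ?_⟩
          rw [chiJ_eq_prod hc _ _ (hpv q), hprod]
          exact hbad
        · exact ⟨Sum.inl ⟨D, hD, hT⟩, rfl⟩
      choose f hf using hmap
      refine Nat.card_le_card_of_injective f fun D D' h => Subtype.ext ?_
      rw [hf D, hf D', h]
    have h6 : (Nat.card {D : k[X] // D ∈ DD (badP d) n ∧
        ¬ JG.TypH d D R (m + 1) 2 (N0 n)} : ℝ) ≤ ε / 2 * X := (hn1 n hnn1).1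
    have h7 : (B + m) / 2 ^ (m - 1) * X ≤ ε / 2 * X := mul_le_mul_of_nonneg_right hmε hX0
    linarith
  · -- the recursion
    have h3 := recur_ind (hfq q) hj
    rw [← hNdef] at h3
    linarith
  · -- the sums of signs
    intro j hj hjm
    rw [Finset.sum_add_distrib, ← Finset.mul_sum, ← Finset.mul_sum]
    have hA : ∑ q ∈ s, indA S H ch d (vecG q.1.1 q.2) j ≤ X :=
      hsum (fun q => indA S H ch d (vecG q.1.1 q.2) j) fun g hf =>
        (hnlev j hj hjm n (hnlev' j hj hjm) g.1 hNn (hgr g) hf).1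
    have hT : ∑ q ∈ s, indT S H ch d (vecG q.1.1 q.2) j ≤ X :=
      hsum (fun q => indT S H ch d (vecG q.1.1 q.2) j) fun g hf =>
        (hnlev j hj hjm n (hnlev' j hj hjm) g.1 hNn (hgr g) hf).2
    linarith
  · -- level one
    intro q hq
    have hq' : few q.1 ∧ ty q := by simpa [s] using hq
    have := hne q
    obtain ⟨h3, h4⟩ := card_RS_le h hc (hpv q) hBd (htyq q hq'.2).typ.small 1
    have h5 : nH S H (chiJ ch (vecG q.1.1 q.2)) 1 ≤
        Nat.card {y : (G → V) × (Pl → V) // IsPr S (chiJ ch (vecG q.1.1 q.2)) 1 y} :=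
      Nat.card_le_card_of_injective (fun y => ⟨y.1, y.2.pr⟩) fun y y' he =>
        Subtype.ext (congrArg (fun z : {y : (G → V) × (Pl → V) //
          IsPr S (chiJ ch (vecG q.1.1 q.2)) 1 y} => z.1) he)
    rw [hB]
    exact_mod_cast h5.trans h4
  · -- one element gives many
    rintro q hq ⟨y, hy⟩
    have h3 := nH_big h hH (hco q).chi hm1 (fun Q hQ => (hco q).inv h hQ) ((hfq q).fin m) hy
    have h4 : ((2 ^ (m - 1) * N ^ (m + 1) : ℕ) : ℝ) ≤
        (nH S H (chiJ ch (vecG q.1.1 q.2)) m : ℝ) := by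
      exact_mod_cast h3
    refine le_trans ?_ h4
    push_cast
    refine mul_le_mul_of_nonneg_left ?_ (by positivity)
    exact pow_le_pow_right₀ (by exact_mod_cast hN1) (Nat.le_succ m)

/-- **The counting theorem for the heights.** -/
theorem main_H [Fintype V1] [Nontrivial V1] [Finite k] (h : S.Ok) (hH : HOk S H)
    (hc : ChOk S ch d pl)
    (hGA : ∀ m, 1 ≤ m → GridThmA S H ch d m) (hGT : ∀ m, 1 ≤ m → GridThmT S H ch d m)
    (hEA : ∀ m, 1 ≤ m → EqvH S H ch d m (m - 1)) (hET : ∀ m, 1 ≤ m → EqvH S H ch d m m)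
    (hFA : ∀ m, 1 ≤ m → FewTyp S H ch d m (m - 1)) (hFT : ∀ m, 1 ≤ m → FewTyp S H ch d m m)
    (hfa : ∀ (J : Type) (_ : Fintype J) (_ : Nonempty J) (p : J → k[X]),
      PVec d p → HFacts S H ch d p) (ε : ℝ) (hε : 0 < ε) :
    ∃ m₀ : ℕ, ∀ m ≥ m₀, ∃ n₀ : ℕ, ∀ n ≥ n₀,
      (Nat.card {D : k[X] // D ∈ DD (badP d) n ∧ ∃ y, IsZ S H (ch D) m y} : ℝ) ≤
        ε * (Nat.card k : ℝ) ^ n := by
  obtain ⟨m₀, h1⟩ := main_H_DD h hH hc hGA hGT hEA hET hFA hFT hfa ε hε
  refine ⟨m₀, fun m hm => ?_⟩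
  obtain ⟨n₀, h2⟩ := h1 m hm
  refine ⟨n₀, fun n hn => (h2 n hn).trans ?_⟩
  refine mul_le_mul_of_nonneg_left ?_ hε.le
  have h6 := Finset.card_le_card (SmK.DD_subset (badP d) n)
  rw [SmK.card_Mon] at h6
  exact_mod_cast h6

end Pool.Agent.SmH
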